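import Mathlib

namespace MP_52ecc8_gt_h60

open Polynomial

/-- Let `M` be a `ℤ[X]`-module which is finitely generated as an abelian group and such that no
nonzero element is divisible by all powers of `X`.  If `E` is a submodule with `M = X M + E`,
then `M ⧸ E` is finite. -/
theorem finite_quotient_of_X {M : Type*} [AddCommGroup M] [Module ℤ[X] M]
    [Module.Finite ℤ M] (hsep : ∀ x : M, (∀ k : ℕ, ∃ y : M, x = (X : ℤ[X]) ^ k • y) → x = 0)
    (E : Submodule ℤ[X] M) (hE : ∀ x : M, ∃ y : M, x - (X : ℤ[X]) • y ∈ E) :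
    Finite (M ⧸ E) := by
  have : IsScalarTower ℤ ℤ[X] M := inferInstance
  have : Module.Finite ℤ[X] M := Module.Finite.of_restrictScalars_finite ℤ ℤ[X] M
  have : Module.Finite ℤ[X] (M ⧸ E) := inferInstance
  -- Nakayama
  obtain ⟨r, hr1, hr2⟩ := Submodule.exists_sub_one_mem_and_smul_eq_zero_of_fg_of_le_smul
    (Ideal.span {(X : ℤ[X])}) (⊤ : Submodule ℤ[X] (M ⧸ E)) Module.Finite.fg_top (by
      intro q _
      obtain ⟨x, rfl⟩ := Submodule.Quotient.mk_surjective E q
      obtain ⟨y, hy⟩ := hE x
      have h1 : (Submodule.Quotient.mk x : M ⧸ E)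
          = (X : ℤ[X]) • (Submodule.Quotient.mk y : M ⧸ E) := by
        rw [← Submodule.Quotient.mk_smul]
        exact (Submodule.Quotient.eq E).2 hy
      rw [h1]
      exact Submodule.smul_mem_smul (Ideal.subset_span rfl) trivial)
  obtain ⟨s, hs⟩ := Ideal.mem_span_singleton'.1 hr1
  have hrE : ∀ x : M, r • x ∈ E := by
    intro x
    have := hr2 (Submodule.Quotient.mk x) trivial
    rw [← Submodule.Quotient.mk_smul] at this
    exact (Submodule.Quotient.mk_eq_zero E).1 this
  have hr : r = 1 + s * X := by rw [hs]; ring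
  -- `r` is injective on `M`
  have hinj : ∀ x : M, r • x = 0 → x = 0 := by
    have key : ∀ k : ℕ, ∀ x : M, r • x = 0 → ∃ y : M, r • y = 0 ∧ x = (X : ℤ[X]) ^ k • y := by
      intro k
      induction k with
      | zero => intro x hx; exact ⟨x, hx, by simp⟩
      | succ k ih =>
        intro x hx
        obtain ⟨y, hy, rfl⟩ := ih x hx
        refine ⟨-(s • y), ?_, ?_⟩
        · rw [smul_neg, smul_comm, hy, smul_zero, neg_zero]
        · have : y = (X : ℤ[X]) • (-(s • y)) := by
            have h := hy
            rw [hr, add_smul, one_smul, mul_comm, mul_smul] at h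
            rw [smul_neg]
            exact eq_neg_of_add_eq_zero_left h
          conv_lhs => rw [this]
          rw [pow_succ, mul_smul]
    intro x hx
    exact hsep x (fun k => by obtain ⟨y, -, hy⟩ := key k x hx; exact ⟨y, hy⟩)
  -- so `M / rM` is finite
  let f : M →ₗ[ℤ] M := (LinearMap.lsmul ℤ[X] M r).restrictScalars ℤ
  have hf : Function.Injective f := by
    rw [← LinearMap.ker_eq_bot, LinearMap.ker_eq_bot']
    intro x hx
    exact hinj x hx
  have hfin : Finite (M ⧸ LinearMap.range f) := by
    apply Module.finite_of_fg_torsion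
    rw [← Module.finrank_eq_zero_iff_isTorsion]
    have h1 := Submodule.finrank_quotient_add_finrank (LinearMap.range f)
    have h2 : Module.finrank ℤ (LinearMap.range f) = Module.finrank ℤ M :=
      LinearMap.finrank_range_of_inj hf
    omega
  have hle : LinearMap.range f ≤ E.restrictScalars ℤ := by
    rintro _ ⟨x, rfl⟩
    exact hrE x
  let g : (M ⧸ LinearMap.range f) → M ⧸ E :=
    fun q => (Submodule.mapQ (LinearMap.range f) (E.restrictScalars ℤ) LinearMap.id hle q)
  have hg : Function.Surjective g := by
    intro q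
    obtain ⟨x, rfl⟩ := Submodule.Quotient.mk_surjective E q
    exact ⟨Submodule.Quotient.mk x, rfl⟩
  exact Finite.of_surjective g hg

end MP_52ecc8_gt_h60
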