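import Pool.Agent.Lib.MP_52ecc8_gt_h60.FP

namespace MP_52ecc8_gt_h60

open Function

universe u

/-- A finitely generated free group has a finite basis. -/
theorem finite_of_freeGroup_fg {X : Type*} (h : Group.FG (FreeGroup X)) : Finite X := by
  classical
  obtain ⟨S, hS, hSf⟩ := Group.fg_iff.1 h
  -- letters occurring in the words of `S`
  set L : Set X := ⋃ w ∈ S, {x | ∃ b, (x, b) ∈ FreeGroup.toWord w} with hL
  have hLf : L.Finite := by
    refine hSf.biUnion ?_
    intro w _
    refine ((FreeGroup.toWord w).map Prod.fst).toFinset.finite_toSet.subset ?_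
    rintro x ⟨b, hb⟩
    simp only [List.coe_toFinset, List.mem_map, Set.mem_ofPred_eq, Prod.exists,
      exists_and_right, exists_eq_right]
    exact ⟨b, hb⟩
  have hall : ∀ x : X, x ∈ L := by
    intro x
    by_contra hx
    let f : FreeGroup X →* Multiplicative ℤ :=
      FreeGroup.lift (fun y => if y = x then Multiplicative.ofAdd 1 else 1)
    have h1 : f = 1 := by
      apply MonoidHom.eq_of_eqOn_dense hS
      intro w hw
      have hmem : ∀ y b, (y, b) ∈ FreeGroup.toWord w → y ≠ x := by
        rintro y b hyb rfl
        exact hx (Set.mem_biUnion hw ⟨b, hyb⟩)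
      have : w = FreeGroup.mk (FreeGroup.toWord w) := (FreeGroup.mk_toWord).symm
      rw [this]
      simp only [f, FreeGroup.lift_mk, MonoidHom.one_apply]
      apply List.prod_eq_one
      intro z hz
      obtain ⟨⟨y, b⟩, hyb, rfl⟩ := List.mem_map.1 hz
      have := hmem y b hyb
      cases b <;> simp [this]
    have h2 : f (FreeGroup.of x) = Multiplicative.ofAdd 1 := by simp [f]
    rw [h1] at h2
    have h3 : (0 : ℤ) = 1 := congrArg Multiplicative.toAdd h2
    exact absurd h3 (by norm_num)
  exact Set.finite_univ_iff.1 (hLf.subset (fun x _ => hall x))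

/-- Subgroups of finite index in finitely presented groups are finitely presented. -/
theorem fp_of_finiteIndex {G : Type*} [Group G] [hG : Group.IsFinitelyPresented G]
    (H : Subgroup G) [hH : H.FiniteIndex] : Group.IsFinitelyPresented H := by
  classical
  obtain ⟨n, p, hp, R, hRf, hR⟩ := hG.out
  set F' : Subgroup (FreeGroup (Fin n)) := H.comap p with hF'
  have hfi : F'.FiniteIndex := by
    constructor
    rw [hF', Subgroup.index_comap_of_surjective _ hp]
    exact hH.index_ne_zero
  have hfg : Group.FG F' := Subgroup.fg_of_index_ne_zero F'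
  have hfree : IsFreeGroup F' := inferInstance
  have hfin : Finite (IsFreeGroup.Generators F') := by
    apply finite_of_freeGroup_fg
    exact Group.fg_of_surjective (f := (IsFreeGroup.toFreeGroup F').toMonoidHom)
      (IsFreeGroup.toFreeGroup F').surjective
  have hfp : Group.IsFinitelyPresented F' :=
    Group.IsFinitelyPresented.equiv (IsFreeGroup.mulEquiv F')
  -- the restriction `F' → H`
  let q : F' →* H := p.subgroupComap H
  have hq : Surjective q := by
    rintro ⟨h, hh⟩
    obtain ⟨w, rfl⟩ := hp h
    exact ⟨⟨w, hh⟩, rfl⟩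
  refine Group.IsFinitelyPresented.of_surjective q hq ?_
  -- transversal
  obtain ⟨T, hT, -⟩ := F'.exists_isComplement_right 1
  have hTfin : T.Finite := hT.finite_right
  have hker : p.ker ≤ F' := by
    intro w hw
    change p w ∈ H
    rw [(MonoidHom.mem_ker).1 hw]; exact H.one_mem
  have hRk : ∀ r ∈ R, ∀ t : FreeGroup (Fin n), t * r * t⁻¹ ∈ p.ker := by
    intro r hr t
    apply (inferInstance : p.ker.Normal).conj_mem
    rw [← hR]; exact Subgroup.subset_normalClosure hr
  have : Finite R := hRf
  have : Finite T := hTfin
  set B : Set F' := Set.range (fun rt : R × T =>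
    (⟨rt.2.1 * rt.1.1 * (rt.2.1)⁻¹, hker (hRk _ rt.1.2 _)⟩ : F')) with hB
  refine ⟨B, Set.finite_range _, le_antisymm ?_ ?_⟩
  · apply Subgroup.normalClosure_le_normal
    rintro _ ⟨⟨⟨r, hr⟩, ⟨t, ht⟩⟩, rfl⟩
    change _ ∈ q.ker
    rw [MonoidHom.mem_ker]
    apply Subtype.ext
    exact hRk r hr t
  · rintro ⟨w, hw⟩ hwq
    have hwk : w ∈ p.ker := by
      have := (MonoidHom.mem_ker).1 hwq
      have h2 := congrArg Subtype.val this
      exact h2
    set N : Subgroup F' := Subgroup.normalClosure B with hN
    have hNn : N.Normal := Subgroup.normalClosure_normal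
    -- `p.ker ≤ N.map F'.subtype`
    have hle : p.ker ≤ N.map F'.subtype := by
      rw [← hR]
      rw [Subgroup.normalClosure, Subgroup.closure_le]
      intro y hy
      obtain ⟨r, hr, hry⟩ := Group.mem_conjugatesOfSet_iff.1 hy
      obtain ⟨c, hc⟩ := isConj_iff.1 hry
      -- write `c = h t`
      obtain ⟨⟨⟨h, hh⟩, ⟨t, ht⟩⟩, hht⟩ := hT.2 c
      simp only at hht
      refine ⟨(⟨h, hh⟩ : F') * ⟨t * r * t⁻¹, hker (hRk _ hr _)⟩ * (⟨h, hh⟩ : F')⁻¹, ?_, ?_⟩
      · apply hNn.conj_mem
        exact Subgroup.subset_normalClosure ⟨(⟨r, hr⟩, ⟨t, ht⟩), rfl⟩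
      · rw [← hc, ← hht]
        simp [mul_assoc]
    obtain ⟨z, hz, hzw⟩ := hle hwk
    have : z = ⟨w, hw⟩ := Subtype.ext hzw
    rwa [← this]

/-- A finitely generated abelian group is finitely presented, and all its subgroups are finitely
generated. -/
theorem noeth_of_comm {A : Type*} [CommGroup A] (h : Group.FG A) (H : Subgroup A) : H.FG := by
  have h1 : AddGroup.FG (Additive A) := inferInstance
  have h2 : Module.Finite ℤ (Additive A) := Module.Finite.iff_addGroup_fg.2 h1
  have h3 : IsNoetherian ℤ (Additive A) := isNoetherian_of_isNoetherianRing_of_finite ℤ _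
  have h4 := h3.noetherian (AddSubgroup.toIntSubmodule (Subgroup.toAddSubgroup H))
  rw [Subgroup.fg_iff_add_fg]
  rw [← AddSubgroup.toIntSubmodule_toAddSubgroup (Subgroup.toAddSubgroup H),
    ← Submodule.fg_iff_addSubgroup_fg]
  exact h4

/-- Cyclic groups are finitely presented. -/
theorem fp_of_cyclic {A : Type*} [Group A] [IsCyclic A] : Group.IsFinitelyPresented A := by
  obtain ⟨g, hg⟩ := IsCyclic.exists_generator (α := A)
  let f : Multiplicative ℤ →* A := zpowersHom A g
  have hf : Surjective f := by
    intro a
    obtain ⟨n, rfl⟩ := Subgroup.mem_zpowers_iff.1 (hg a)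
    exact ⟨Multiplicative.ofAdd n, by simp [f]⟩
  refine Group.IsFinitelyPresented.of_surjective f hf ?_
  have h1 : f.ker.FG := noeth_of_comm inferInstance _
  have : Group.FG f.ker := (Group.fg_iff_subgroup_fg _).2 h1
  exact Subgroup.IsFinitelyNormallyGenerated.of_FG _

/-- Finitely generated abelian groups are finitely presented. -/
theorem fp_of_comm_aux (n : ℕ) : ∀ (A : Type u) [CommGroup A] (S : Finset A), S.card ≤ n →
    Subgroup.closure (S : Set A) = ⊤ → Group.IsFinitelyPresented A := by
  classical
  induction n with
  | zero =>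
    intro A _ S hS hcl
    have h0 : S = ∅ := Finset.card_eq_zero.1 (Nat.le_zero.1 hS)
    subst h0
    have : Subsingleton A := by
      rw [← Subgroup.subsingleton_iff]
      simp only [Finset.coe_empty, Subgroup.closure_empty] at hcl
      exact subsingleton_of_bot_eq_top hcl
    infer_instance
  | succ n ih =>
    intro A _ S hS hcl
    rcases S.eq_empty_or_nonempty with h0 | ⟨s, hs⟩
    · exact ih A S (by rw [h0]; simp) hcl
    set C := Subgroup.zpowers s with hC
    have hC1 : Group.IsFinitelyPresented C := fp_of_cyclic
    have hq : Surjective (QuotientGroup.mk' C) := QuotientGroup.mk'_surjective C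
    have hQ : Group.IsFinitelyPresented (A ⧸ C) := by
      have h1 : Subgroup.closure (((S.erase s).image (QuotientGroup.mk' C) : Finset (A ⧸ C)) :
          Set (A ⧸ C)) = ⊤ := by
        rw [eq_top_iff]
        have h2 : (⊤ : Subgroup (A ⧸ C)) = (⊤ : Subgroup A).map (QuotientGroup.mk' C) := by
          rw [← MonoidHom.range_eq_map, MonoidHom.range_eq_top.2 hq]
        rw [h2, ← hcl, MonoidHom.map_closure, Subgroup.closure_le]
        rintro _ ⟨x, hx, rfl⟩
        by_cases hxs : x = s
        · subst hxs
          have : (QuotientGroup.mk' C) x = 1 :=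
            (QuotientGroup.eq_one_iff _).2 (Subgroup.mem_zpowers x)
          rw [this]; exact Subgroup.one_mem _
        · apply Subgroup.subset_closure
          simp only [Finset.coe_image, Set.mem_image, Finset.mem_coe, Finset.mem_erase]
          exact ⟨x, ⟨hxs, hx⟩, rfl⟩
      refine ih (A ⧸ C) _ ?_ h1
      refine Finset.card_image_le.trans ?_
      rw [Finset.card_erase_of_mem hs]; omega
    exact fp_of_extension (QuotientGroup.mk' C) hq
      (by rw [QuotientGroup.ker_mk']; exact hC1) hQ




theorem fp_of_comm {A : Type u} [CommGroup A] (h : Group.FG A) : Group.IsFinitelyPresented A := by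
  obtain ⟨S, hS⟩ := h.out
  exact fp_of_comm_aux S.card A S le_rfl hS

theorem fp_of_comm' {A : Type u} [i : Group A] (hc : ∀ a b : A, a * b = b * a)
    (h : Group.FG A) : Group.IsFinitelyPresented A := by
  let j : CommGroup A := { i with mul_comm := hc }
  exact @fp_of_comm A j h

theorem noeth_of_comm' {A : Type u} [i : Group A] (hc : ∀ a b : A, a * b = b * a)
    (h : Group.FG A) (H : Subgroup A) : H.FG := by
  let j : CommGroup A := { i with mul_comm := hc }
  exact @noeth_of_comm A j h H

/-- Finitely generated nilpotent groups are finitely presented and all their subgroups are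
finitely generated. -/
theorem nilpotent_noeth (G : Type u) [Group G] [Group.IsNilpotent G] :
    Group.FG G → (Group.IsFinitelyPresented G ∧ ∀ H : Subgroup G, H.FG) := by
  refine Group.nilpotent_center_quotient_ind
    (P := fun G _ _ => Group.FG G → (Group.IsFinitelyPresented G ∧ ∀ H : Subgroup G, H.FG))
    G ?_ ?_
  · intro G _ _ _
    refine ⟨inferInstance, fun H => ?_⟩
    have : Finite H := inferInstance
    exact (Group.fg_iff_subgroup_fg _).1 inferInstance
  · intro G _ _ ih hG
    have hQfg : Group.FG (G ⧸ Subgroup.center G) := inferInstance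
    obtain ⟨hQ1, hQ2⟩ := ih hQfg
    set Z := Subgroup.center G with hZ
    have hq : Surjective (QuotientGroup.mk' Z) := QuotientGroup.mk'_surjective Z
    have hZn : Z.IsFinitelyNormallyGenerated := by
      have := ker_nfg (QuotientGroup.mk' Z) hq
      rwa [QuotientGroup.ker_mk'] at this
    -- `Z` is finitely generated
    have hZfg : Z.FG := by
      obtain ⟨S, hSf, hS⟩ := hZn
      have : Subgroup.closure S = Z := by
        apply le_antisymm
        · rw [← hS]; exact Subgroup.closure_le_normalClosure
        · have hn : (Subgroup.closure S).Normal := by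
            constructor
            intro x hx g
            have hxZ : x ∈ Z := by rw [← hS]; exact Subgroup.closure_le_normalClosure hx
            have : g * x * g⁻¹ = x := by
              rw [Subgroup.mem_center_iff.1 hxZ g]; group
            rw [this]; exact hx
          conv_lhs => rw [← hS]
          exact Subgroup.normalClosure_le_normal Subgroup.subset_closure
      exact (Subgroup.fg_iff _).2 ⟨S, this, hSf⟩
    have hZfg' : Group.FG Z := (Group.fg_iff_subgroup_fg _).2 hZfg
    have hZc : ∀ a b : Z, a * b = b * a := fun a b =>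
      Subtype.ext (Subgroup.mem_center_iff.1 b.2 a.1)
    have hZfp : Group.IsFinitelyPresented Z := fp_of_comm' hZc hZfg'
    constructor
    · exact fp_of_extension (QuotientGroup.mk' Z) hq
        (by rw [QuotientGroup.ker_mk']; exact hZfp) hQ1
    · intro H
      rw [← Group.fg_iff_subgroup_fg]
      let f : H →* (H.map (QuotientGroup.mk' Z)) := (QuotientGroup.mk' Z).subgroupMap H
      have hf : Surjective f := (QuotientGroup.mk' Z).subgroupMap_surjective H
      have h1 : f.ker.FG := by
        -- `f.ker` embeds in `Z`
        have e : f.ker = (Z.subgroupOf H) := by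
          ext x
          rw [MonoidHom.mem_ker, Subgroup.mem_subgroupOf]
          constructor
          · intro hx
            have := congrArg Subtype.val hx
            exact (QuotientGroup.eq_one_iff _).1 this
          · intro hx
            apply Subtype.ext
            exact (QuotientGroup.eq_one_iff _).2 hx
        rw [e]
        have h2 : (H.subgroupOf Z).FG := noeth_of_comm' hZc hZfg' _
        have h3 : Group.FG (H.subgroupOf Z) := (Group.fg_iff_subgroup_fg _).2 h2
        have h4 : Group.FG (Z.subgroupOf H) := by
          let g : (H.subgroupOf Z) →* (Z.subgroupOf H) :=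
            { toFun := fun x => ⟨⟨x.1.1, x.2⟩, x.1.2⟩
              map_one' := rfl
              map_mul' := fun _ _ => rfl }
          have hg : Surjective g := fun x => ⟨⟨⟨x.1.1, x.2⟩, x.1.2⟩, rfl⟩
          exact Group.fg_of_surjective hg
        exact (Group.fg_iff_subgroup_fg _).1 h4
      exact fg_of_extension f hf h1 ((Group.fg_iff_subgroup_fg _).2 (hQ2 _))

end MP_52ecc8_gt_h60
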