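import Pool.Agent.Lib.MP_52ecc8_gt_h60.Defs
import Pool.Agent.Lib.MP_52ecc8_gt_h60.Alg
import Pool.Agent.Lib.MP_52ecc8_gt_h60.FI

namespace MP_52ecc8_gt_h60

open Function

universe u v

/-- Version of `finite_quotient_of_X` for an abelian group with an endomorphism. -/
theorem finite_quotient_of_end {M : Type*} [AddCommGroup M] [hM : Module.Finite ℤ M]
    (σ : M →ₗ[ℤ] M) (hsep : ∀ x : M, (∀ k : ℕ, ∃ y : M, x = (σ ^ k) y) → x = 0)
    (E : Submodule ℤ M) (hσE : ∀ x ∈ E, σ x ∈ E) (hE : ∀ x : M, ∃ y : M, x - σ y ∈ E) :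
    Finite (M ⧸ E) := by
  let inst : Module (Polynomial ℤ) M := Module.compHom M (Polynomial.aeval σ).toRingHom
  have hX : ∀ x : M, (Polynomial.X : Polynomial ℤ) • x = σ x := by
    intro x
    change (Polynomial.aeval σ Polynomial.X) x = σ x
    rw [Polynomial.aeval_X]
  have hp : ∀ (p : Polynomial ℤ) (x : M), p • x = (Polynomial.aeval σ p) x := fun p x => rfl
  have hXk : ∀ (k : ℕ) (x : M), (Polynomial.X : Polynomial ℤ) ^ k • x = (σ ^ k) x := by
    intro k x
    rw [hp, map_pow, Polynomial.aeval_X]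
  have hσk : ∀ (k : ℕ), ∀ x ∈ E, (σ ^ k) x ∈ E := by
    intro k
    induction k with
    | zero => intro x hx; simpa using hx
    | succ k ih => intro x hx; rw [pow_succ]; exact ih _ (hσE _ hx)
  let E' : Submodule (Polynomial ℤ) M :=
    { E.toAddSubmonoid with
      smul_mem' := by
        intro p x hx
        rw [hp]
        change (Polynomial.aeval σ p) x ∈ E
        rw [Polynomial.aeval_eq_sum_range, LinearMap.sum_apply]
        apply Submodule.sum_mem
        intro i _
        rw [LinearMap.smul_apply]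
        exact Submodule.smul_mem _ _ (hσk i x hx) }
  have h := finite_quotient_of_X (M := M) (by
    intro x hx
    apply hsep x
    intro k
    obtain ⟨y, hy⟩ := hx k
    exact ⟨y, by rw [hy, hXk]⟩) E' (by
    intro x
    obtain ⟨y, hy⟩ := hE x
    exact ⟨y, by rw [hX]; exact hy⟩)
  let g : (M ⧸ E') → M ⧸ E := fun q => Quotient.liftOn' q (fun x => (Submodule.Quotient.mk x : M ⧸ E))
    (by
      intro a b hab
      apply (Submodule.Quotient.eq E).2
      have := (Submodule.quotientRel_def E').1 hab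
      exact this)
  have hg : Surjective g := by
    intro q
    obtain ⟨x, rfl⟩ := Submodule.Quotient.mk_surjective E q
    exact ⟨Submodule.Quotient.mk x, rfl⟩
  exact Finite.of_surjective g hg

section Core

variable {Γ : Type u} [Group Γ] (φ : Γ →* Γ) {A : Type v} [AddCommGroup A]
  (i : Multiplicative A →* Γ) (α : A →+ A)

/-- The main finiteness statement, for an abelian normal subgroup given as the image of an
injective homomorphism `i : A → Γ`. -/
theorem finiteIndex_aux [hΓ : Group.FG Γ] [hA : Module.Finite ℤ A] (hi : Injective i)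
    (hn : i.range.Normal)
    (hα : ∀ a : A, φ (i (Multiplicative.ofAdd a)) = i (Multiplicative.ofAdd (α a)))
    (h2 : ∀ x, φ x ∈ i.range → x ∈ i.range)
    (h3 : ∀ g : Γ, ∃ h : Γ, ∃ e ∈ i.range, g = e * φ h) :
    (core φ ⊔ i.range).FiniteIndex := by
  classical
  -- notation
  let I : A → Γ := fun a => i (Multiplicative.ofAdd a)
  have I_add : ∀ a b, I (a + b) = I a * I b := fun a b => by
    simp only [I, ofAdd_add, map_mul]
  have I_zero : I 0 = 1 := by simp [I]
  have I_neg : ∀ a, I (-a) = (I a)⁻¹ := fun a => by simp [I]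
  have I_inj : ∀ a b, I a = I b → a = b := fun a b h => Multiplicative.ofAdd.injective (hi h)
  have I_range : ∀ x, x ∈ i.range ↔ ∃ a, I a = x := by
    intro x
    constructor
    · rintro ⟨a, rfl⟩; exact ⟨Multiplicative.toAdd a, rfl⟩
    · rintro ⟨a, rfl⟩; exact ⟨Multiplicative.ofAdd a, rfl⟩
  have I_comm : ∀ a b, I a * I b = I b * I a := fun a b => by rw [← I_add, ← I_add, add_comm]
  have hφI : ∀ a, φ (I a) = I (α a) := hα
  have hφIk : ∀ (k : ℕ) (a : A), φ^[k] (I a) = I (α^[k] a) := by
    intro k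
    induction k with
    | zero => intro a; rfl
    | succ k ih => intro a; rw [iterate_succ_apply, hφI, ih, ← iterate_succ_apply]
  have h2k : ∀ (k : ℕ) (x : Γ), φ^[k] x ∈ i.range → x ∈ i.range := by
    intro k
    induction k with
    | zero => intro x hx; exact hx
    | succ k ih => intro x hx; exact h2 x (ih _ (by rwa [iterate_succ_apply] at hx))
  have mulk : ∀ (k : ℕ) (x y : Γ), φ^[k] (x * y) = φ^[k] x * φ^[k] y :=
    fun k x y => iterate_map_mul φ k x y
  have invk : ∀ (k : ℕ) (x : Γ), φ^[k] (x⁻¹) = (φ^[k] x)⁻¹ := fun k x => iterate_map_inv φ k x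
  -- subgroups `α^k A`
  let N : ℕ → Submodule ℤ A := fun k => LinearMap.range ((α.toIntLinearMap) ^ k)
  have αk : ∀ (k : ℕ) (a : A), ((α.toIntLinearMap) ^ k) a = α^[k] a := by
    intro k
    induction k with
    | zero => intro a; rfl
    | succ k ih => intro a; rw [pow_succ, iterate_succ_apply, ← ih]; rfl
  have memN : ∀ k a, a ∈ N k ↔ ∃ b, α^[k] b = a := by
    intro k a
    constructor
    · rintro ⟨b, rfl⟩; exact ⟨b, (αk k b).symm⟩
    · rintro ⟨b, rfl⟩; exact ⟨b, αk k b⟩
  -- decomposition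
  have hdec : ∀ (k : ℕ) (g : Γ), ∃ a : A, ∃ x : Γ, g = I a * φ^[k] x := by
    intro k
    induction k with
    | zero => intro g; exact ⟨0, g, by rw [I_zero, one_mul]; rfl⟩
    | succ k ih =>
      intro g
      obtain ⟨h, e, he, rfl⟩ := h3 g
      obtain ⟨a, rfl⟩ := (I_range e).1 he
      obtain ⟨b, x, rfl⟩ := ih h
      refine ⟨a + α b, x, ?_⟩
      rw [map_mul, hφI, I_add, iterate_succ_apply', mul_assoc]
  have huniq : ∀ (k : ℕ) (a b : A) (x y : Γ), I a * φ^[k] x = I b * φ^[k] y → a - b ∈ N k := by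
    intro k a b x y h
    have h1 : φ^[k] (y * x⁻¹) = I (-b + a) := by
      rw [mulk, invk, I_add, I_neg]
      have : φ^[k] y = (I b)⁻¹ * (I a * φ^[k] x) := by rw [h]; group
      rw [this]; group
    obtain ⟨c, hc⟩ := (I_range _).1 (h2k k (y * x⁻¹) ((I_range _).2 ⟨_, h1.symm⟩))
    rw [← hc, hφIk] at h1
    rw [memN]
    exact ⟨c, by rw [I_inj _ _ h1]; abel⟩
  choose dec hdec using hdec
  -- the cocycle
  let P : Type v := (k : ℕ) → (A ⧸ N k)
  let c : Γ → ((k : ℕ) → (A ⧸ N k)) := fun g k => Submodule.Quotient.mk (dec k g)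
  have hc : ∀ (k : ℕ) (g : Γ) (a : A) (x : Γ), g = I a * φ^[k] x →
      c g k = Submodule.Quotient.mk a := by
    intro k g a x hg
    obtain ⟨y, hy⟩ := hdec k g
    apply (Submodule.Quotient.eq _).2
    apply huniq k _ _ y x
    rw [← hy, ← hg]
  -- conjugation action
  have hρ : ∀ (g : Γ) (a : A), ∃ b : A, I b = g * I a * g⁻¹ := by
    intro g a
    exact (I_range _).1 (hn.conj_mem _ ((I_range _).2 ⟨a, rfl⟩) g)
  choose ρ hρ using hρ
  have ρ_add : ∀ g a b, ρ g (a + b) = ρ g a + ρ g b := by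
    intro g a b
    apply I_inj
    rw [I_add, hρ, hρ, hρ, I_add]; group
  let ρl : Γ → A →+ A := fun g => AddMonoidHom.mk' (ρ g) (ρ_add g)
  have hρl : ∀ g a, ρl g a = ρ g a := fun g a => rfl
  have c_mul : ∀ (h s : Γ) (k : ℕ),
      c (h * s) k = c h k + Submodule.Quotient.mk (ρl h (dec k s)) := by
    intro h s k
    obtain ⟨x, hx⟩ := hdec k h
    obtain ⟨y, hy⟩ := hdec k s
    rw [hc k (h * s) (dec k h + ρl h (dec k s)) (x * y) ?_, Submodule.Quotient.mk_add]
    rw [I_add, hρl, hρ, mulk]
    have e2 : h * I (dec k s) * h⁻¹ = I (ρ h (dec k s)) := (hρ _ _).symm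
    calc h * s = h * (I (dec k s) * φ^[k] y) := by rw [← hy]
      _ = (h * I (dec k s) * h⁻¹) * h * φ^[k] y := by group
      _ = I (ρ h (dec k s)) * (I (dec k h) * φ^[k] x) * φ^[k] y := by rw [e2, ← hx]
      _ = (I (ρ h (dec k s)) * I (dec k h)) * (φ^[k] x * φ^[k] y) := by group
      _ = (I (dec k h) * I (ρ h (dec k s))) * (φ^[k] x * φ^[k] y) := by rw [I_comm]
      _ = I (dec k h) * (h * I (dec k s) * h⁻¹) * (φ^[k] x * φ^[k] y) := by rw [e2]
  have c_I : ∀ a k, c (I a) k = Submodule.Quotient.mk a := by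
    intro a k
    apply hc k (I a) a 1
    rw [iterate_map_one φ k, mul_one]
  have ρ_I : ∀ a b, ρ (I a) b = b := by
    intro a b
    apply I_inj
    rw [hρ, I_comm]; group
  -- finite generation
  obtain ⟨gs, hgs⟩ := (Module.Finite.fg_top (R := ℤ) (M := A))
  let gen : gs → A := fun x => x.1
  have hgen : Submodule.span ℤ (Set.range gen) = ⊤ := by
    rw [← hgs]; congr 1; ext x; simp [gen]
  have hcoef : ∀ a : A, ∃ m : gs → ℤ, ∑ j, m j • gen j = a := by
    intro a
    have : a ∈ Submodule.span ℤ (Set.range gen) := by rw [hgen]; trivial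
    exact (Submodule.mem_span_range_iff_exists_fun ℤ).1 this
  choose coef hcoef using hcoef
  let L : Γ → (gs → A) →ₗ[ℤ] ((k : ℕ) → (A ⧸ N k)) := fun s =>
    LinearMap.pi (fun k => (N k).mkQ.comp
      (∑ j, (coef (dec k s) j) • (LinearMap.proj (R := ℤ) (φ := fun _ : gs => A) j)))
  have hL : ∀ (h s : Γ) (k : ℕ), L s (fun j => ρl h (gen j)) k
      = Submodule.Quotient.mk (ρl h (dec k s)) := by
    intro h s k
    conv_rhs => rw [← hcoef (dec k s)]
    simp only [L, LinearMap.pi_apply, LinearMap.comp_apply, LinearMap.sum_apply,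
      LinearMap.smul_apply, LinearMap.proj_apply, map_sum, map_zsmul]
    rw [← Submodule.mkQ_apply, map_sum]
    simp only [map_zsmul]
  obtain ⟨S, hS, hSf⟩ := Monoid.fg_iff.1 (Group.fg_iff_monoid_fg.1 hΓ)
  let big : Submodule ℤ ((k : ℕ) → (A ⧸ N k)) := ⨆ s ∈ S, LinearMap.range (L s)
  have hbig : big.FG := by
    have h := Submodule.fg_biSup hSf.toFinset (fun s => LinearMap.range (L s)) (by
      intro s _
      exact Module.Finite.iff_fg.1 inferInstance)
    simpa [big] using h
  have c_big : ∀ g : Γ, c g ∈ big := by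
    intro g
    have hg : g ∈ Submonoid.closure S := by rw [hS]; trivial
    induction hg using Submonoid.closure_induction_right with
    | one =>
      have : c 1 = 0 := by
        ext k
        rw [hc k 1 0 1 (by rw [I_zero, iterate_map_one φ k, mul_one])]
        rfl
      rw [this]; exact big.zero_mem
    | mul_right x hx y hy ih =>
      have : c (x * y) = c x + L y (fun j => ρl x (gen j)) := by
        ext k
        rw [Pi.add_apply, hL, c_mul]
      rw [this]
      refine big.add_mem ih ?_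
      exact Submodule.mem_iSup_of_mem y (Submodule.mem_iSup_of_mem hy ⟨_, rfl⟩)
  let M : Submodule ℤ ((k : ℕ) → (A ⧸ N k)) := Submodule.span ℤ (Set.range c)
  have hMbig : M ≤ big := by
    apply Submodule.span_le.2
    rintro _ ⟨g, rfl⟩
    exact c_big g
  have hMf : Module.Finite ℤ M := by
    have h1 : Module.Finite ℤ big := Module.Finite.iff_fg.2 hbig
    have h2 : IsNoetherian ℤ big := isNoetherian_of_isNoetherianRing_of_finite ℤ _
    have h3 : IsNoetherian ℤ M := isNoetherian_of_injective (Submodule.inclusion hMbig)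
      (Submodule.inclusion_injective hMbig)
    infer_instance
  -- the shift
  have hNsucc : ∀ k, N k ≤ (N (k + 1)).comap α.toIntLinearMap := by
    intro k a ha
    obtain ⟨b, rfl⟩ := (memN k a).1 ha
    change α.toIntLinearMap _ ∈ N (k + 1)
    rw [memN]
    exact ⟨b, by rw [iterate_succ_apply']; rfl⟩
  let σ : ((k : ℕ) → (A ⧸ N k)) →ₗ[ℤ] ((k : ℕ) → (A ⧸ N k)) :=
    LinearMap.pi (fun k => match k with
      | 0 => 0
      | k + 1 => (Submodule.mapQ (N k) (N (k + 1)) α.toIntLinearMap (hNsucc k)).comp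
          (LinearMap.proj k))
  have hσ0 : ∀ x, σ x 0 = 0 := fun x => rfl
  have hσs : ∀ x k, σ x (k + 1)
      = Submodule.mapQ (N k) (N (k + 1)) α.toIntLinearMap (hNsucc k) (x k) := fun x k => rfl
  have hN0 : N 0 = ⊤ := by
    rw [eq_top_iff]; intro a _; rw [memN]; exact ⟨a, rfl⟩
  have c_φ : ∀ g, c (φ g) = σ (c g) := by
    intro g
    ext k
    cases k with
    | zero =>
      rw [hσ0]
      apply (Submodule.Quotient.mk_eq_zero _).2
      rw [hN0]; trivial
    | succ k =>
      rw [hσs]
      obtain ⟨x, hx⟩ := hdec k g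
      rw [hc k g _ x hx]
      rw [Submodule.mapQ_apply]
      apply hc (k + 1) (φ g) _ x
      conv_lhs => rw [hx]
      rw [map_mul, hφI, iterate_succ_apply']
      rfl
  have hσM : ∀ x ∈ M, σ x ∈ M := by
    have : M ≤ M.comap σ := by
      apply Submodule.span_le.2
      rintro _ ⟨g, rfl⟩
      change σ (c g) ∈ M
      rw [← c_φ]
      exact Submodule.subset_span ⟨_, rfl⟩
    exact this
  let τ : M →ₗ[ℤ] M := σ.restrict hσM
  have hτk : ∀ (k : ℕ) (y : M), ((τ ^ k) y : (k : ℕ) → (A ⧸ N k)) = (σ ^ k) y.1 := by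
    intro k
    induction k with
    | zero => intro y; rfl
    | succ k ih =>
      intro y
      rw [pow_succ, pow_succ]
      change (((τ ^ k) (τ y) : M) : (k : ℕ) → (A ⧸ N k)) = (σ ^ k) (σ y.1)
      rw [ih]; rfl
  have hσk : ∀ (k j : ℕ) (y : (k : ℕ) → (A ⧸ N k)), j < k → (σ ^ k) y j = 0 := by
    intro k
    induction k with
    | zero => intro j y hj; omega
    | succ k ih =>
      intro j y hj
      rw [pow_succ']
      change σ ((σ ^ k) y) j = 0
      cases j with
      | zero => exact hσ0 _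
      | succ j => rw [hσs, ih j y (by omega), map_zero]
  let E' : Submodule ℤ M :=
    { carrier := {x | ∃ a : A, x.1 = c (I a)}
      add_mem' := by
        rintro x y ⟨a, ha⟩ ⟨b, hb⟩
        refine ⟨a + b, ?_⟩
        ext k
        rw [c_I, Submodule.Quotient.mk_add, ← c_I, ← c_I, ← ha, ← hb]; rfl
      zero_mem' := ⟨0, by ext k; rw [c_I]; rfl⟩
      smul_mem' := by
        rintro m x ⟨a, ha⟩
        refine ⟨m • a, ?_⟩
        ext k
        rw [c_I, Submodule.Quotient.mk_smul, ← c_I, ← ha]; rfl }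
  have hfin : Finite (M ⧸ E') := by
    apply finite_quotient_of_end τ
    · intro x hx
      apply Subtype.ext
      ext j
      obtain ⟨y, hy⟩ := hx (j + 1)
      rw [hy, hτk]
      exact hσk (j + 1) j y.1 (by omega)
    · rintro x ⟨a, ha⟩
      refine ⟨α a, ?_⟩
      change σ x.1 = _
      rw [ha, ← c_φ, hφI]
    · rintro ⟨x, hx⟩
      have key : ∀ x ∈ M, ∃ y ∈ M, ∃ a : A, x - σ y = c (I a) := by
        intro x hx
        induction hx using Submodule.span_induction with
        | mem x hx =>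
          obtain ⟨g, rfl⟩ := hx
          obtain ⟨h, e, he, rfl⟩ := h3 g
          obtain ⟨a, rfl⟩ := (I_range e).1 he
          refine ⟨c h, Submodule.subset_span ⟨_, rfl⟩, a, ?_⟩
          ext k
          rw [Pi.sub_apply, c_mul, hρl, ρ_I, ← c_φ]
          change c (I a) k + c (φ h) k - c (φ h) k = _
          abel
        | zero => exact ⟨0, M.zero_mem, 0, by
            ext k; rw [map_zero, sub_zero, c_I]; rfl⟩
        | add x y hx hy ihx ihy =>
          obtain ⟨u, hu, a, ha⟩ := ihx
          obtain ⟨v, hv, b, hb⟩ := ihy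
          refine ⟨u + v, M.add_mem hu hv, a + b, ?_⟩
          have : x + y - σ (u + v) = (x - σ u) + (y - σ v) := by rw [map_add]; abel
          rw [this, ha, hb]
          ext k
          rw [Pi.add_apply, c_I, c_I, c_I]; rfl
        | smul m x hx ih =>
          obtain ⟨u, hu, a, ha⟩ := ih
          refine ⟨m • u, M.smul_mem m hu, m • a, ?_⟩
          rw [map_smul, ← smul_sub, ha]
          ext k
          rw [Pi.smul_apply, c_I, c_I]; rfl
      obtain ⟨y, hy, a, ha⟩ := key x hx
      exact ⟨⟨y, hy⟩, a, ha⟩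
  -- conclusion
  let f : Γ → M ⧸ E' := fun g => Submodule.Quotient.mk ⟨c g, Submodule.subset_span ⟨g, rfl⟩⟩
  have hf : ∀ g h, f g = f h → g⁻¹ * h ∈ core φ ⊔ i.range := by
    intro g h hgh
    have h1 := (Submodule.Quotient.eq E').1 hgh
    obtain ⟨a, ha⟩ := h1
    have h4 : c g = c (I a * h) := by
      have e : c g = c (I a) + c h := by
        rw [← ha]
        change c g = (c g - c h) + c h
        abel
      rw [e]
      ext k
      rw [Pi.add_apply, c_mul, hρl, ρ_I]
    have h5 : g⁻¹ * (I a * h) ∈ core φ := by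
      intro k
      obtain ⟨x, hx⟩ := hdec k g
      obtain ⟨y, hy⟩ := hdec k (I a * h)
      have h6 : c g k = c (I a * h) k := by rw [h4]
      rw [hc k g _ x hx, hc k (I a * h) _ y hy] at h6
      have h7 := (Submodule.Quotient.eq _).1 h6
      obtain ⟨b, hb⟩ := (memN k _).1 h7
      refine ⟨x⁻¹ * (I (-b)) * y, ?_⟩
      rw [mulk, mulk, invk, hφIk]
      have h8 : α^[k] (-b) = -(dec k g) + dec k (I a * h) := by
        rw [iterate_map_neg α k b, hb]; abel
      rw [h8, I_add, I_neg]
      conv_rhs => rw [hx, hy]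
      have h9 : dec k (I (dec k g) * φ^[k] x) = dec k g := by rw [← hx]
      group
    have h6 : I a * h = h * (h⁻¹ * I a * h) := by group
    have h7 : h⁻¹ * I a * h ∈ i.range := by
      have := hn.conj_mem (I a) ((I_range _).2 ⟨a, rfl⟩) h⁻¹
      rwa [inv_inv] at this
    have h8 : g⁻¹ * h = (g⁻¹ * (I a * h)) * (h⁻¹ * I a * h)⁻¹ := by group
    rw [h8]
    exact Subgroup.mul_mem _ (Subgroup.mem_sup_left h5)
      (Subgroup.inv_mem _ (Subgroup.mem_sup_right h7))
  have : Finite (Γ ⧸ (core φ ⊔ i.range)) := by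
    let F : (Γ ⧸ (core φ ⊔ i.range)) → M ⧸ E' := fun q => f q.out
    apply Finite.of_injective F
    intro q r hqr
    have := hf _ _ hqr
    rw [← QuotientGroup.eq] at this
    rwa [QuotientGroup.out_eq', QuotientGroup.out_eq'] at this
  exact Subgroup.finiteIndex_of_finite_quotient

end Core

end MP_52ecc8_gt_h60
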