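import Mathlib

/-!
# MP_52ecc8_gt (helper60): definitions

For an endomorphism `φ` of a group `Γ`, `core φ` is the intersection of the images of all the
iterates of `φ`; for `Γ = π₁(M)` and `φ = h_#` this is the group `G(h)` of the problem.
-/

namespace MP_52ecc8_gt_h60

universe u

/-- The intersection `⋂ₖ φᵏ(Γ)` of the images of the iterates of an endomorphism. -/
def core {Γ : Type u} [Group Γ] (φ : Γ →* Γ) : Subgroup Γ where
  carrier := {g | ∀ k : ℕ, ∃ x : Γ, φ^[k] x = g}
  mul_mem' := by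
    intro a b ha hb k
    obtain ⟨x, rfl⟩ := ha k
    obtain ⟨y, rfl⟩ := hb k
    exact ⟨x * y, iterate_map_mul φ k x y⟩
  one_mem' := fun k => ⟨1, iterate_map_one φ k⟩
  inv_mem' := by
    intro a ha k
    obtain ⟨x, rfl⟩ := ha k
    exact ⟨x⁻¹, iterate_map_inv φ k x⟩

/-- The endomorphism of `Γ ⧸ E` induced by an endomorphism `φ` of `Γ` with `φ(E) ⊆ E`. -/
def quot {Γ : Type u} [Group Γ] (φ : Γ →* Γ) (E : Subgroup Γ) [E.Normal]
    (h : ∀ x ∈ E, φ x ∈ E) : Γ ⧸ E →* Γ ⧸ E :=
  QuotientGroup.map E E φ h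

/-- A subgroup `E` of `Γ` is virtually polycyclic if it satisfies the maximal condition (all its
subgroups are finitely generated) and has a solvable subgroup of finite index. -/
def VirtuallyPolycyclic {Γ : Type u} [Group Γ] (E : Subgroup Γ) : Prop :=
  (∀ H : Subgroup Γ, H ≤ E → H.FG) ∧
    ∃ S : Subgroup Γ, S ≤ E ∧ S.relIndex E ≠ 0 ∧ Group.IsSolvable S

end MP_52ecc8_gt_h60
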