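import Mathlib

namespace MP_52ecc8_gt_h60

open Function

universe u v

/-- Extension of finitely generated groups. -/
theorem fg_of_extension {G : Type*} {Q : Type*} [Group G] [Group Q] (f : G →* Q)
    (hf : Surjective f) (hN : f.ker.FG) (hQ : Group.FG Q) : Group.FG G := by
  classical
  obtain ⟨S, hS, hSf⟩ := (Subgroup.fg_iff _).1 hN
  obtain ⟨T, hT, hTf⟩ := Group.fg_iff.1 hQ
  refine Group.fg_iff.2 ⟨S ∪ (surjInv hf) '' T, ?_, hSf.union (hTf.image _)⟩
  rw [eq_top_iff]
  set K := Subgroup.closure (S ∪ (surjInv hf) '' T) with hK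
  have h1 : f.ker ≤ K := by
    rw [← hS]; exact Subgroup.closure_mono Set.subset_union_left
  have h2 : K.map f = ⊤ := by
    rw [eq_top_iff, ← hT, Subgroup.closure_le]
    intro t ht
    exact ⟨surjInv hf t, Subgroup.subset_closure (Or.inr ⟨t, ht, rfl⟩), surjInv_eq hf t⟩
  intro g _
  have : f g ∈ K.map f := by rw [h2]; trivial
  obtain ⟨k, hk, hkg⟩ := this
  have : k⁻¹ * g ∈ f.ker := by
    rw [MonoidHom.mem_ker, map_mul, map_inv, hkg]; simp
  have := K.mul_mem hk (h1 this)
  simpa using this

/-- A homomorphism from a free group onto a finitely presented group has a kernel which is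
finitely generated as a normal subgroup. -/
theorem ker_nfg_free {Q : Type*} [Group Q] [hQ : Group.IsFinitelyPresented Q] {n : ℕ}
    (f : FreeGroup (Fin n) →* Q) (hf : Surjective f) : f.ker.IsFinitelyNormallyGenerated := by
  obtain ⟨m, p, hp, S, hS, hSp⟩ := hQ.out
  -- lifts
  have hu : ∀ i : Fin n, ∃ w, p w = f (FreeGroup.of i) := fun i => hp _
  have hv : ∀ j : Fin m, ∃ w, f w = p (FreeGroup.of j) := fun j => hf _
  choose u hu using hu
  choose v hv using hv
  set U : FreeGroup (Fin n) →* FreeGroup (Fin m) := FreeGroup.lift u with hU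
  set V : FreeGroup (Fin m) →* FreeGroup (Fin n) := FreeGroup.lift v with hV
  have hpU : ∀ w, p (U w) = f w := by
    intro w
    have : p.comp U = f := by ext i; simp [hU, hu]
    exact DFunLike.congr_fun this w
  have hfV : ∀ w, f (V w) = p w := by
    intro w
    have : f.comp V = p := by ext i; simp [hV, hv]
    exact DFunLike.congr_fun this w
  set R : Set (FreeGroup (Fin n)) :=
    (Set.range fun i => (FreeGroup.of i)⁻¹ * V (U (FreeGroup.of i))) ∪ (V '' S) with hR
  refine ⟨R, (Set.finite_range _).union (hS.image _), le_antisymm ?_ ?_⟩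
  · apply Subgroup.normalClosure_le_normal
    rintro x (⟨i, rfl⟩ | ⟨s, hs, rfl⟩)
    · change _ ∈ f.ker
      rw [MonoidHom.mem_ker, map_mul, hfV, hpU]; simp
    · change _ ∈ f.ker
      rw [MonoidHom.mem_ker, hfV, ← MonoidHom.mem_ker, ← hSp]
      exact Subgroup.subset_normalClosure hs
  · intro w hw
    -- `VU ≡ id` modulo the normal closure
    set K := Subgroup.normalClosure R with hK
    have h1 : ((QuotientGroup.mk' K).comp (V.comp U)) = QuotientGroup.mk' K := by
      ext i
      simp only [MonoidHom.comp_apply]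
      symm
      apply QuotientGroup.eq.2
      exact Subgroup.subset_normalClosure (Or.inl ⟨i, rfl⟩)
    have h2 : V (U w) ∈ K := by
      have h3 : U w ∈ Subgroup.normalClosure S := by
        rw [hSp, MonoidHom.mem_ker, hpU]; exact hw
      have h4 : Subgroup.normalClosure S ≤ K.comap V := by
        apply Subgroup.normalClosure_le_normal
        intro s hs
        exact Subgroup.subset_normalClosure (Or.inr ⟨s, hs, rfl⟩)
      exact h4 h3
    have h3 := DFunLike.congr_fun h1 w
    have h4 : (QuotientGroup.mk' K) w = 1 := by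
      rw [← h3]
      exact (QuotientGroup.eq_one_iff _).2 h2
    exact (QuotientGroup.eq_one_iff _).1 h4

/-- A homomorphism from a finitely generated group onto a finitely presented group has a kernel
which is finitely generated as a normal subgroup. -/
theorem ker_nfg {G Q : Type*} [Group G] [Group Q] [hG : Group.FG G]
    [hQ : Group.IsFinitelyPresented Q] (f : G →* Q) (hf : Surjective f) :
    f.ker.IsFinitelyNormallyGenerated := by
  obtain ⟨n, g, hg⟩ : ∃ (n : ℕ) (g : FreeGroup (Fin n) →* G), Surjective g := by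
    obtain ⟨α, hα, φ, hφ⟩ := Group.fg_iff_exists_freeGroup_hom_surjective_finite.1 hG
    obtain ⟨n, ⟨e⟩⟩ := Finite.exists_equiv_fin α
    exact ⟨n, φ.comp (FreeGroup.freeGroupCongr e.symm).toMonoidHom,
      hφ.comp (FreeGroup.freeGroupCongr e.symm).surjective⟩
  have h := ker_nfg_free (f.comp g) (hf.comp hg)
  have h2 := h.map hg
  convert h2 using 1
  ext x
  constructor
  · intro hx
    obtain ⟨y, rfl⟩ := hg x
    exact ⟨y, hx, rfl⟩
  · rintro ⟨y, hy, rfl⟩
    exact hy

/-- Hall: an extension of a finitely presented group by a finitely presented group is finitely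
presented. -/
theorem fp_of_extension {G Q : Type*} [Group G] [Group Q] (f : G →* Q)
    (hf : Surjective f) (hN : Group.IsFinitelyPresented f.ker)
    (hQ : Group.IsFinitelyPresented Q) : Group.IsFinitelyPresented G := by
  classical
  obtain ⟨m, p, hp, R, hRf, hR⟩ := hN.out
  have hNfg : Group.FG f.ker := Group.fg_of_surjective hp
  have hQfg : Group.FG Q := by
    obtain ⟨m', p', hp', -⟩ := hQ.out
    exact Group.fg_of_surjective hp'
  have hGfg : Group.FG G :=
    fg_of_extension f hf ((Group.fg_iff_subgroup_fg _).1 hNfg) hQfg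
  obtain ⟨n, π, hπ⟩ : ∃ (n : ℕ) (g : FreeGroup (Fin n) →* G), Surjective g := by
    obtain ⟨α, hα, φ, hφ⟩ := Group.fg_iff_exists_freeGroup_hom_surjective_finite.1 hGfg
    obtain ⟨n, ⟨e⟩⟩ := Finite.exists_equiv_fin α
    exact ⟨n, φ.comp (FreeGroup.freeGroupCongr e.symm).toMonoidHom,
      hφ.comp (FreeGroup.freeGroupCongr e.symm).surjective⟩
  obtain ⟨T, hTf, hT⟩ := ker_nfg_free (f.comp π) (hf.comp hπ)
  -- lift generators of `N`
  have hx : ∀ j : Fin m, ∃ w, π w = (p (FreeGroup.of j) : G) := fun j => hπ _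
  choose x hx using hx
  set θ : FreeGroup (Fin m) →* FreeGroup (Fin n) := FreeGroup.lift x with hθ
  have hπθ : ∀ w, π (θ w) = (p w : G) := by
    intro w
    have : π.comp θ = (f.ker.subtype).comp p := by ext i; simp [hθ, hx]
    exact DFunLike.congr_fun this w
  -- words in the generators of `N`
  have hword : ∀ g : FreeGroup (Fin n), f (π g) = 1 → ∃ w : FreeGroup (Fin m),
      (p w : G) = π g := by
    intro g hg
    obtain ⟨w, hw⟩ := hp ⟨π g, hg⟩
    exact ⟨w, by rw [hw]⟩
  have hc1 : ∀ (i : Fin n) (j : Fin m), ∃ w : FreeGroup (Fin m),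
      (p w : G) = π (FreeGroup.of i * x j * (FreeGroup.of i)⁻¹) := by
    intro i j
    apply hword
    rw [map_mul, map_mul, map_mul, map_mul, hx]
    have : f (p (FreeGroup.of j) : G) = 1 := (p (FreeGroup.of j)).2
    rw [this]; simp
  have hc2 : ∀ (i : Fin n) (j : Fin m), ∃ w : FreeGroup (Fin m),
      (p w : G) = π ((FreeGroup.of i)⁻¹ * x j * (FreeGroup.of i)) := by
    intro i j
    apply hword
    rw [map_mul, map_mul, map_mul, map_mul, hx]
    have : f (p (FreeGroup.of j) : G) = 1 := (p (FreeGroup.of j)).2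
    rw [this]; simp
  choose w1 hw1 using hc1
  choose w2 hw2 using hc2
  have hc3 : ∀ t : T, ∃ w : FreeGroup (Fin m), (p w : G) = π t.1 := by
    intro t
    apply hword
    have : t.1 ∈ (f.comp π).ker := by
      rw [← hT]; exact Subgroup.subset_normalClosure t.2
    exact this
  choose w3 hw3 using hc3
  have : Finite T := hTf
  set A : Set (FreeGroup (Fin n)) :=
    (Set.range fun ij : Fin n × Fin m =>
      (FreeGroup.of ij.1 * x ij.2 * (FreeGroup.of ij.1)⁻¹) * (θ (w1 ij.1 ij.2))⁻¹) ∪
    (Set.range fun ij : Fin n × Fin m =>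
      ((FreeGroup.of ij.1)⁻¹ * x ij.2 * (FreeGroup.of ij.1)) * (θ (w2 ij.1 ij.2))⁻¹) ∪
    (Set.range fun t : T => t.1 * (θ (w3 t))⁻¹) ∪ (θ '' R) with hA
  refine ⟨n, π, hπ, A, ?_, ?_⟩
  · exact (((Set.finite_range _).union (Set.finite_range _)).union (Set.finite_range _)).union
      (hRf.image _)
  apply le_antisymm
  · apply Subgroup.normalClosure_le_normal
    rintro y (((⟨⟨i, j⟩, rfl⟩ | ⟨⟨i, j⟩, rfl⟩) | ⟨t, rfl⟩) | ⟨r, hr, rfl⟩)
    · change _ ∈ π.ker
      rw [MonoidHom.mem_ker, map_mul, map_inv, hπθ, hw1]; simp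
    · change _ ∈ π.ker
      rw [MonoidHom.mem_ker, map_mul, map_inv, hπθ, hw2]; simp
    · change _ ∈ π.ker
      rw [MonoidHom.mem_ker, map_mul, map_inv, hπθ, hw3]; simp
    · change _ ∈ π.ker
      rw [MonoidHom.mem_ker, hπθ]
      have : p r = 1 := by
        rw [← MonoidHom.mem_ker, ← hR]; exact Subgroup.subset_normalClosure hr
      rw [this]; rfl
  · set K := Subgroup.normalClosure A with hK
    -- `P = θ(F_m) K` is normal in `F_n`
    set P : Subgroup (FreeGroup (Fin n)) := θ.range ⊔ K with hP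
    have hKP : K ≤ P := le_sup_right
    have hθP : θ.range ≤ P := le_sup_left
    have hcl : θ.range = Subgroup.closure (Set.range x) := by
      rw [hθ, FreeGroup.range_lift_eq_closure]
    have hconj : ∀ g : FreeGroup (Fin n), (∀ j, g * x j * g⁻¹ ∈ P) →
        ∀ y ∈ P, g * y * g⁻¹ ∈ P := by
      intro g hg y hy
      have : P ≤ P.comap (MulAut.conj g).toMonoidHom := by
        apply sup_le
        · rw [hcl, Subgroup.closure_le]
          rintro _ ⟨j, rfl⟩
          exact hg j
        · intro k hk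
          apply hKP
          exact (Subgroup.normalClosure_normal (s := A)).conj_mem k hk g
      exact this hy
    have hPn : P.Normal := by
      rw [← Subgroup.normalizer_eq_top_iff, eq_top_iff]
      have hgen : (⊤ : Subgroup (FreeGroup (Fin n))) =
          Subgroup.closure (Set.range (FreeGroup.of)) := (FreeGroup.closure_range_of _).symm
      rw [hgen, Subgroup.closure_le]
      rintro _ ⟨i, rfl⟩
      rw [SetLike.mem_coe, Subgroup.mem_normalizer_iff]
      intro y
      constructor
      · apply hconj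
        intro j
        have h1 : (FreeGroup.of i * x j * (FreeGroup.of i)⁻¹) * (θ (w1 i j))⁻¹ ∈ K :=
          Subgroup.subset_normalClosure (Or.inl (Or.inl (Or.inl ⟨(i, j), rfl⟩)))
        have h2 := P.mul_mem (hKP h1) (hθP ⟨w1 i j, rfl⟩)
        simpa using h2
      · intro hy
        have h := hconj (FreeGroup.of i)⁻¹ (by
          intro j
          have h1 : ((FreeGroup.of i)⁻¹ * x j * (FreeGroup.of i)) * (θ (w2 i j))⁻¹ ∈ K :=
            Subgroup.subset_normalClosure (Or.inl (Or.inl (Or.inr ⟨(i, j), rfl⟩)))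
          have h2 := P.mul_mem (hKP h1) (hθP ⟨w2 i j, rfl⟩)
          simpa using h2) _ hy
        have e : (FreeGroup.of i)⁻¹ * (FreeGroup.of i * y * (FreeGroup.of i)⁻¹)
            * ((FreeGroup.of i)⁻¹)⁻¹ = y := by group
        rwa [e] at h
    have hTP : (f.comp π).ker ≤ P := by
      rw [← hT]
      apply Subgroup.normalClosure_le_normal
      intro t ht
      have h1 : t * (θ (w3 ⟨t, ht⟩))⁻¹ ∈ K :=
        Subgroup.subset_normalClosure (Or.inl (Or.inr ⟨⟨t, ht⟩, rfl⟩))
      have h2 := P.mul_mem (hKP h1) (hθP ⟨w3 ⟨t, ht⟩, rfl⟩)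
      simpa using h2
    have hRK : (p.ker) ≤ K.comap θ := by
      rw [← hR]
      apply Subgroup.normalClosure_le_normal
      intro r hr
      exact Subgroup.subset_normalClosure (Or.inr ⟨r, hr, rfl⟩)
    intro w hw
    have hw' : w ∈ P := by
      apply hTP
      rw [MonoidHom.mem_ker, MonoidHom.comp_apply, (MonoidHom.mem_ker).1 hw, map_one]
    have hKle : K ≤ π.ker := by
      apply Subgroup.normalClosure_le_normal
      rintro y (((⟨⟨i, j⟩, rfl⟩ | ⟨⟨i, j⟩, rfl⟩) | ⟨t, rfl⟩) | ⟨r, hr, rfl⟩)
      · change _ ∈ π.ker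
        rw [MonoidHom.mem_ker, map_mul, map_inv, hπθ, hw1]; simp
      · change _ ∈ π.ker
        rw [MonoidHom.mem_ker, map_mul, map_inv, hπθ, hw2]; simp
      · change _ ∈ π.ker
        rw [MonoidHom.mem_ker, map_mul, map_inv, hπθ, hw3]; simp
      · change _ ∈ π.ker
        rw [MonoidHom.mem_ker, hπθ]
        have : p r = 1 := by
          rw [← MonoidHom.mem_ker, ← hR]; exact Subgroup.subset_normalClosure hr
        rw [this]; rfl
    obtain ⟨a, ⟨v, rfl⟩, k, hk, hak⟩ := Subgroup.mem_sup_of_normal_right.1 hw'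
    have hv : p v = 1 := by
      have h1 : π (θ v) = 1 := by
        have h2 : π (θ v * k) = 1 := by rw [hak]; exact hw
        rwa [map_mul, (MonoidHom.mem_ker).1 (hKle hk), mul_one] at h2
      rw [hπθ] at h1
      exact Subtype.ext h1
    have h3 : θ v ∈ K := hRK hv
    rw [← hak]
    exact K.mul_mem h3 hk

end MP_52ecc8_gt_h60
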