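import Pool.Agent.Lib.MP_52ecc8_gt_h60.Solv

open MP_52ecc8_gt_h60

universe u

/-- **Theorem.** Let `φ` be an injective endomorphism of a group `Γ` whose image has finite index
(for instance `φ = h_#` on `Γ = π₁(M)` for a self-covering as in the problem), and let `E` be a
virtually polycyclic normal subgroup of `Γ` with `φ⁻¹(E) = E`.  If the iterated image
`⋂ₖ φ̄ᵏ(Γ/E)` of the induced endomorphism `φ̄` of `Γ/E` is finitely generated (finitely presented),
then so is the iterated image `⋂ₖ φᵏ(Γ)` of `φ`. -/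
theorem Pool.Agent.Results.MP_52ecc8_gt.PolycyclicFibre.result
    {Γ : Type u} [Group Γ] (φ : Γ →* Γ) (hφ : Function.Injective φ)
    (hfi : φ.range.FiniteIndex) (E : Subgroup Γ) [E.Normal] (hE : VirtuallyPolycyclic E)
    (h1 : ∀ x ∈ E, φ x ∈ E) (h2 : ∀ x, φ x ∈ E → x ∈ E) :
    (Group.FG (core (quot φ E h1)) → Group.FG (core φ)) ∧
    (Group.IsFinitelyPresented (core (quot φ E h1)) →
      Group.IsFinitelyPresented (core φ)) :=
  main φ hφ hfi E h1 h2 hE.1 hE.2
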