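import Pool.Agent.Lib.MP_52ecc8_gt_h60.Virt

namespace MP_52ecc8_gt_h60

open Function

universe u v

/-- Third isomorphism theorem for the induced maps, and the composition of two steps. -/
theorem two_step {Γ : Type u} [Group Γ] (φ : Γ →* Γ)
    (N : Subgroup Γ) [N.Normal] (hN1 : ∀ x ∈ N, φ x ∈ N)
    (E : Subgroup Γ) [E.Normal] (h1 : ∀ x ∈ E, φ x ∈ E) (hNE : N ≤ E)
    (hE'n : (E.map (QuotientGroup.mk' N)).Normal)
    (h1' : ∀ x ∈ E.map (QuotientGroup.mk' N), quot φ N hN1 x ∈ E.map (QuotientGroup.mk' N))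
    (s : Lifts φ N hN1) (t : Lifts (quot φ N hN1) (E.map (QuotientGroup.mk' N)) h1') :
    Lifts φ E h1 := by
  set π := QuotientGroup.mk' N with hπ
  have hπs : Surjective π := QuotientGroup.mk'_surjective N
  set E' := E.map π with hE'
  have memE' : ∀ x, π x ∈ E' ↔ x ∈ E := by
    intro x
    constructor
    · rintro ⟨y, hy, hyx⟩
      have : y⁻¹ * x ∈ N := QuotientGroup.eq.1 hyx
      have h3 := E.mul_mem hy (hNE this)
      simpa using h3
    · intro hx; exact ⟨x, hx, rfl⟩
  have key : Nonempty (core (quot φ E h1) ≃* core (quot (quot φ N hN1) E' h1')) := by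
    let p : Γ →* (Γ ⧸ N) ⧸ E' := (QuotientGroup.mk' E').comp π
    have hp : Surjective p := (QuotientGroup.mk'_surjective E').comp hπs
    have hk : p.ker = E := by
      ext g
      rw [MonoidHom.mem_ker]
      change (QuotientGroup.mk' E') (π g) = 1 ↔ g ∈ E
      rw [← memE' g]
      exact QuotientGroup.eq_one_iff _
    let θ : (Γ ⧸ E) ≃* ((Γ ⧸ N) ⧸ E') := (QuotientGroup.quotientMulEquivOfEq hk.symm).trans
      (QuotientGroup.quotientKerEquivOfSurjective p hp)
    have hθ : ∀ x : Γ, θ (QuotientGroup.mk' E x) = p x := fun x => rfl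
    apply core_equiv (quot φ E h1) (quot (quot φ N hN1) E' h1') θ
    intro q
    obtain ⟨x, rfl⟩ := QuotientGroup.mk'_surjective E q
    rw [quot_mk, hθ, hθ]
    rfl
  obtain ⟨κ⟩ := key
  constructor
  · intro h
    apply s.1
    apply t.1
    exact Group.fg_of_surjective (f := κ.toMonoidHom) κ.surjective
  · intro h
    apply s.2
    apply t.2
    exact Group.IsFinitelyPresented.equiv κ

/-- The derived series of a subgroup, computed from the top. -/
def der {Γ : Type u} [Group Γ] : ℕ → Subgroup Γ → Subgroup Γ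
  | 0, S => S
  | n + 1, S => der n ⁅S, S⁆

theorem der_mono {Γ : Type u} [Group Γ] (n : ℕ) : ∀ S T : Subgroup Γ, S ≤ T → der n S ≤ der n T := by
  induction n with
  | zero => intro S T h; exact h
  | succ n ih => intro S T h; exact ih _ _ (Subgroup.commutator_mono h h)

theorem der_map {Γ Δ : Type*} [Group Γ] [Group Δ] (f : Γ →* Δ) (n : ℕ) :
    ∀ S : Subgroup Γ, (der n S).map f = der n (S.map f) := by
  induction n with
  | zero => intro S; rfl
  | succ n ih =>
    intro S
    change (der n ⁅S, S⁆).map f = der n ⁅S.map f, S.map f⁆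
    rw [ih, Subgroup.map_commutator]

theorem der_subgroupOf {Γ : Type u} [Group Γ] (n : ℕ) (S K : Subgroup Γ) (hSK : S ≤ K)
    (h : der n S = ⊥) : der n (S.subgroupOf K) = ⊥ := by
  have h1 := der_map K.subtype n (S.subgroupOf K)
  have h2 : (S.subgroupOf K).map K.subtype = S := by
    rw [Subgroup.subgroupOf_map_subtype]; exact inf_eq_left.2 hSK
  rw [h2, h] at h1
  rw [eq_bot_iff]
  intro x hx
  have : K.subtype x ∈ (der n (S.subgroupOf K)).map K.subtype := ⟨x, hx, rfl⟩
  rw [h1, Subgroup.mem_bot] at this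
  exact Subtype.ext this

theorem der_succ' {Γ : Type u} [Group Γ] (n : ℕ) :
    ∀ S : Subgroup Γ, der (n + 1) S = ⁅der n S, der n S⁆ := by
  induction n with
  | zero => intro S; rfl
  | succ n ih => intro S; exact ih ⁅S, S⁆

theorem der_of_solvable {Γ : Type u} [Group Γ] (S : Subgroup Γ) (h : Group.IsSolvable S) :
    ∃ n, der n S = ⊥ := by
  obtain ⟨n, hn⟩ := h.solvable
  refine ⟨n, ?_⟩
  have h1 : ∀ n, der n (⊤ : Subgroup S) = derivedSeries S n := by
    intro n
    induction n with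
    | zero => rfl
    | succ n ih => rw [der_succ', ih]; rfl
  have h2 := der_map S.subtype n (⊤ : Subgroup S)
  rw [h1, hn, Subgroup.map_bot] at h2
  rw [← MonoidHom.range_eq_map, Subgroup.range_subtype] at h2
  exact h2.symm

/-- An endomorphism of a finitely generated abelian group with finite cokernel has torsion
kernel. -/
theorem ker_torsion {A : Type*} [AddCommGroup A] [Module.Finite ℤ A] (f : A →ₗ[ℤ] A)
    (hf : Finite (A ⧸ LinearMap.range f)) (x : A) (hx : f x = 0) : ∃ m : ℕ, 0 < m ∧ m • x = 0 := by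
  have h1 : Module.finrank ℤ (A ⧸ LinearMap.range f) = 0 := by
    rw [Module.finrank_eq_zero_iff_isTorsion]
    intro y
    have hn : 0 < Nat.card (A ⧸ LinearMap.range f) := Nat.card_pos
    refine ⟨⟨(Nat.card (A ⧸ LinearMap.range f) : ℤ), ?_⟩, ?_⟩
    · rw [mem_nonZeroDivisors_iff_ne_zero]; exact_mod_cast hn.ne'
    · change (Nat.card (A ⧸ LinearMap.range f) : ℤ) • y = 0
      rw [natCast_zsmul]
      exact card_nsmul_eq_zero'
  have h2 := Submodule.finrank_quotient_add_finrank (LinearMap.range f)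
  have h3 := Submodule.finrank_quotient_add_finrank (LinearMap.ker f)
  have h4 : Module.finrank ℤ (A ⧸ LinearMap.ker f) = Module.finrank ℤ (LinearMap.range f) :=
    (f.quotKerEquivRange).finrank_eq
  have h5 : Module.finrank ℤ (LinearMap.ker f) = 0 := by omega
  rw [Module.finrank_eq_zero_iff_isTorsion] at h5
  obtain ⟨⟨m, hm⟩, hmx⟩ := @h5 ⟨x, hx⟩
  have hm0 : m ≠ 0 := by rwa [mem_nonZeroDivisors_iff_ne_zero] at hm
  have hmx' : m • x = 0 := congrArg Subtype.val hmx
  refine ⟨m.natAbs, Int.natAbs_pos.2 hm0, ?_⟩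
  rcases Int.natAbs_eq m with h | h
  · rw [h, natCast_zsmul] at hmx'; exact hmx'
  · rw [h, neg_smul, natCast_zsmul, neg_eq_zero] at hmx'; exact hmx'

section Solv

/-- The inductive statement: the finiteness properties lift along virtually solvable normal
subgroups with the maximal condition, by induction on the derived length. -/
def P (d : ℕ) : Prop :=
  ∀ (Γ : Type u) [Group Γ] (φ : Γ →* Γ) (_ : Injective φ) (_ : φ.range.FiniteIndex)
    (E : Subgroup Γ) [E.Normal] (h1 : ∀ x ∈ E, φ x ∈ E) (_ : ∀ x, φ x ∈ E → x ∈ E)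
    (_ : ∀ H : Subgroup Γ, H ≤ E → H.FG)
    (S : Subgroup Γ) (_ : S ≤ E) (_ : S.relIndex E ≠ 0) (_ : der d S = ⊥), Lifts φ E h1

theorem P_zero : P.{u} 0 := by
  intro Γ _ φ hφ _ E _ h1 _ _ S hSE hfi hS
  have hS' : S = ⊥ := hS
  subst hS'
  rw [Subgroup.relIndex_bot_left] at hfi
  have : Finite E := Nat.finite_of_card_ne_zero hfi
  exact fin_step φ hφ E h1 this

variable {Γ : Type u} [Group Γ]

/-- `E ∩ (roots of the commutator subgroup)`. -/
def iso (E : Subgroup Γ) : Subgroup Γ :=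
  ((CommGroup.torsion (Abelianization E)).comap Abelianization.of).map E.subtype

theorem of_eq_one_iff (E : Subgroup Γ) (x : E) : Abelianization.of x = 1 ↔ x.1 ∈ ⁅E, E⁆ := by
  rw [← MonoidHom.mem_ker, Abelianization.ker_of, ← Subgroup.map_subtype_commutator]
  constructor
  · intro h; exact ⟨x, h, rfl⟩
  · rintro ⟨y, hy, hyx⟩
    have : y = x := Subtype.ext hyx
    rwa [← this]

theorem mem_iso (E : Subgroup Γ) (x : Γ) :
    x ∈ iso E ↔ x ∈ E ∧ ∃ m : ℕ, 0 < m ∧ x ^ m ∈ ⁅E, E⁆ := by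
  constructor
  · rintro ⟨y, hy, rfl⟩
    refine ⟨y.2, ?_⟩
    have h : IsOfFinOrder (Abelianization.of y) := hy
    obtain ⟨m, hm, hmy⟩ := isOfFinOrder_iff_pow_eq_one.1 h
    refine ⟨m, hm, ?_⟩
    rw [← map_pow, of_eq_one_iff] at hmy
    exact hmy
  · rintro ⟨hx, m, hm, hmx⟩
    refine ⟨⟨x, hx⟩, ?_, rfl⟩
    change IsOfFinOrder (Abelianization.of (⟨x, hx⟩ : E))
    rw [isOfFinOrder_iff_pow_eq_one]
    refine ⟨m, hm, ?_⟩
    rw [← map_pow, of_eq_one_iff]
    exact hmx

theorem iso_le (E : Subgroup Γ) : iso E ≤ E := fun x hx => ((mem_iso E x).1 hx).1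

theorem comm_le_self (E : Subgroup Γ) : ⁅E, E⁆ ≤ E := Subgroup.commutator_le_self E

theorem comm_le_iso (E : Subgroup Γ) : ⁅E, E⁆ ≤ iso E := by
  intro x hx
  rw [mem_iso]
  exact ⟨comm_le_self E hx, 1, Nat.one_pos, by simpa using hx⟩

theorem iso_normal (E : Subgroup Γ) [E.Normal] : (iso E).Normal := by
  constructor
  intro x hx g
  rw [mem_iso] at hx ⊢
  obtain ⟨hxE, m, hm, hmx⟩ := hx
  refine ⟨(inferInstance : E.Normal).conj_mem x hxE g, m, hm, ?_⟩
  rw [conj_pow]
  exact (inferInstance : (⁅E, E⁆ : Subgroup Γ).Normal).conj_mem _ hmx g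

theorem comm_map (φ : Γ →* Γ) (E : Subgroup Γ) (h1 : ∀ x ∈ E, φ x ∈ E) :
    ∀ x ∈ ⁅E, E⁆, φ x ∈ ⁅E, E⁆ := by
  have h : (⁅E, E⁆ : Subgroup Γ).map φ ≤ ⁅E, E⁆ := by
    rw [Subgroup.map_commutator]
    have : E.map φ ≤ E := by
      rintro _ ⟨x, hx, rfl⟩; exact h1 x hx
    exact Subgroup.commutator_mono this this
  intro x hx
  exact h ⟨x, hx, rfl⟩

/-- `φ(E)` has finite index in `E`. -/
theorem relIndex_map_ne_zero (φ : Γ →* Γ) (hfi : φ.range.FiniteIndex)
    (E : Subgroup Γ) (h2 : ∀ x, φ x ∈ E → x ∈ E) : (E.map φ).relIndex E ≠ 0 := by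
  have h : φ.range ⊓ E ≤ E.map φ := by
    rintro _ ⟨⟨x, rfl⟩, hx⟩
    exact ⟨x, h2 x hx, rfl⟩
  have h3 : (φ.range ⊓ E).relIndex E ≠ 0 := by
    rw [Subgroup.inf_relIndex_right]
    intro h0
    exact hfi.index_ne_zero (Subgroup.index_eq_zero_of_relIndex_eq_zero h0)
  intro h0
  exact h3 (Subgroup.relIndex_eq_zero_of_le_left h h0)

theorem iso_compat (φ : Γ →* Γ) (hfi : φ.range.FiniteIndex)
    (E : Subgroup Γ) (h1 : ∀ x ∈ E, φ x ∈ E) (h2 : ∀ x, φ x ∈ E → x ∈ E) (hE : E.FG) :
    ∀ x, φ x ∈ iso E → x ∈ iso E := by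
  intro x hx
  have hfiE := relIndex_map_ne_zero φ hfi E h2
  rw [mem_iso] at hx ⊢
  obtain ⟨hxE, m, hm, hmx⟩ := hx
  have hxE' := h2 x hxE
  refine ⟨hxE', ?_⟩
  let φE : E →* E := (φ.comp E.subtype).codRestrict E (fun y => h1 y.1 y.2)
  have hEfg : Group.FG E := (Group.fg_iff_subgroup_fg _).2 hE
  let f : Abelianization E →* Abelianization E := Abelianization.map φE
  have hfof : ∀ y : E, f (Abelianization.of y) = Abelianization.of (φE y) := fun y => rfl
  have hAfg : Group.FG (Abelianization E) :=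
    Group.fg_of_surjective (f := (Abelianization.of : E →* Abelianization E))
      (QuotientGroup.mk_surjective)
  have hAfin : Module.Finite ℤ (Additive (Abelianization E)) := by
    rw [Module.Finite.iff_addGroup_fg]
    exact GroupFG.iff_add_fg.1 hAfg
  let g : Additive (Abelianization E) →ₗ[ℤ] Additive (Abelianization E) :=
    (MonoidHom.toAdditive f).toIntLinearMap
  have hgof : ∀ y : E, g (Additive.ofMul (Abelianization.of y)) =
      Additive.ofMul (Abelianization.of (φE y)) := fun y => rfl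
  -- finite cokernel
  have hcoker : Finite (Additive (Abelianization E) ⧸ LinearMap.range g) := by
    have h3 : ((E.map φ).subgroupOf E).FiniteIndex := ⟨hfiE⟩
    have h4 : Finite (E ⧸ (E.map φ).subgroupOf E) := inferInstance
    let k : (E ⧸ (E.map φ).subgroupOf E) → (Additive (Abelianization E) ⧸ LinearMap.range g) :=
      fun q => Submodule.Quotient.mk (Additive.ofMul (Abelianization.of q.out))
    apply Finite.of_surjective k
    intro q
    obtain ⟨a, rfl⟩ := Submodule.Quotient.mk_surjective _ q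
    obtain ⟨y, hy⟩ : ∃ y : E, Additive.ofMul (Abelianization.of y) = a := by
      obtain ⟨y, hy⟩ := QuotientGroup.mk_surjective (Additive.toMul a)
      exact ⟨y, hy⟩
    refine ⟨QuotientGroup.mk y, ?_⟩
    apply (Submodule.Quotient.eq _).2
    have h5 : (QuotientGroup.mk y : E ⧸ (E.map φ).subgroupOf E).out⁻¹ * y ∈
        (E.map φ).subgroupOf E := by
      rw [← QuotientGroup.eq, QuotientGroup.out_eq']
    set z := (QuotientGroup.mk y : E ⧸ (E.map φ).subgroupOf E).out with hz
    obtain ⟨w, hw, hwz⟩ := h5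
    have h6 : φE ⟨w, hw⟩ = z⁻¹ * y := Subtype.ext hwz
    refine ⟨-(Additive.ofMul (Abelianization.of ⟨w, hw⟩)), ?_⟩
    rw [map_neg, hgof, h6, ← hy]
    apply Additive.toMul.injective
    change ((Abelianization.of (z⁻¹ * y)))⁻¹ = Abelianization.of z / Abelianization.of y
    rw [map_mul, map_inv, mul_inv, inv_inv, div_eq_mul_inv]
  have hkey : g (m • Additive.ofMul (Abelianization.of (⟨x, hxE'⟩ : E))) = 0 := by
    rw [map_nsmul, hgof]
    have h7 : Abelianization.of ((φE ⟨x, hxE'⟩) ^ m) = 1 := by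
      rw [of_eq_one_iff]; exact hmx
    rw [map_pow] at h7
    exact congrArg Additive.ofMul h7
  obtain ⟨n, hn, hnx⟩ := ker_torsion g hcoker _ hkey
  refine ⟨n * m, Nat.mul_pos hn hm, ?_⟩
  have h8 : (Abelianization.of ((⟨x, hxE'⟩ : E) ^ (n * m))) = 1 := by
    rw [map_pow]
    rw [← mul_smul] at hnx
    exact hnx
  rw [of_eq_one_iff] at h8
  exact h8

/-- `[E, E]` has finite index in `iso E`. -/
theorem comm_relIndex_iso (E : Subgroup Γ) (hE : E.FG) :
    (⁅E, E⁆ : Subgroup Γ).relIndex (iso E) ≠ 0 := by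
  have hEfg : Group.FG E := (Group.fg_iff_subgroup_fg _).2 hE
  have hAfg : Group.FG (Abelianization E) :=
    Group.fg_of_surjective (f := (Abelianization.of : E →* Abelianization E))
      (QuotientGroup.mk_surjective)
  -- the torsion subgroup is finite
  have hT : Finite (CommGroup.torsion (Abelianization E)) := by
    have h1 : (CommGroup.torsion (Abelianization E)).FG := noeth_of_comm hAfg _
    have h2 : Group.FG (CommGroup.torsion (Abelianization E)) :=
      (Group.fg_iff_subgroup_fg _).2 h1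
    have h3 : Module.Finite ℤ (Additive (CommGroup.torsion (Abelianization E))) := by
      rw [Module.Finite.iff_addGroup_fg]
      exact GroupFG.iff_add_fg.1 h2
    have h4 : Finite (Additive (CommGroup.torsion (Abelianization E))) := by
      apply Module.finite_of_fg_torsion
      intro x
      obtain ⟨m, hm, hmx⟩ := isOfFinOrder_iff_pow_eq_one.1
        (show IsOfFinOrder ((Additive.toMul x).1) from (Additive.toMul x).2)
      refine ⟨⟨(m : ℤ), ?_⟩, ?_⟩
      · rw [mem_nonZeroDivisors_iff_ne_zero]; exact_mod_cast hm.ne'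
      · change (m : ℤ) • x = 0
        rw [natCast_zsmul]
        apply Additive.toMul.injective
        apply Subtype.ext
        exact hmx
    exact h4
  -- the quotient embeds in the torsion subgroup
  let f : (iso E) → CommGroup.torsion (Abelianization E) := fun x =>
    ⟨Abelianization.of ⟨x.1, iso_le E x.2⟩, by
      obtain ⟨y, hy, hyx⟩ := x.2
      have : y = ⟨x.1, iso_le E x.2⟩ := Subtype.ext hyx
      rw [← this]; exact hy⟩
  have hf : ∀ x y : iso E, f x = f y → x⁻¹ * y ∈ (⁅E, E⁆ : Subgroup Γ).subgroupOf (iso E) := by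
    intro x y hxy
    have h1 : Abelianization.of (⟨x.1, iso_le E x.2⟩ : E) = Abelianization.of ⟨y.1, iso_le E y.2⟩ :=
      congrArg Subtype.val hxy
    have h2 : Abelianization.of ((⟨x.1, iso_le E x.2⟩ : E)⁻¹ * ⟨y.1, iso_le E y.2⟩) = 1 := by
      rw [map_mul, map_inv, h1]; simp
    rw [of_eq_one_iff] at h2
    exact h2
  have hfin : Finite (iso E ⧸ (⁅E, E⁆ : Subgroup Γ).subgroupOf (iso E)) := by
    apply Finite.of_injective (fun q => f q.out)
    intro q r hqr
    have := hf _ _ hqr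
    rw [← QuotientGroup.eq, QuotientGroup.out_eq', QuotientGroup.out_eq'] at this
    exact this
  exact Subgroup.finiteIndex_of_finite_quotient.index_ne_zero

/-- The step for a solvable group `E` with `φ⁻¹(E) = E`. -/
theorem solvable_step (d : ℕ) (hP : P.{u} d) (φ : Γ →* Γ) (hφ : Injective φ)
    (hfi : φ.range.FiniteIndex) (E : Subgroup Γ) [E.Normal] (h1 : ∀ x ∈ E, φ x ∈ E)
    (h2 : ∀ x, φ x ∈ E → x ∈ E) (hN : ∀ H : Subgroup Γ, H ≤ E → H.FG)
    (hE : der (d + 1) E = ⊥) : Lifts φ E h1 := by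
  have hIn : (iso E).Normal := iso_normal E
  have hI1 : ∀ x ∈ iso E, φ x ∈ iso E := by
    intro x hx
    rw [mem_iso] at hx ⊢
    obtain ⟨hxE, m, hm, hmx⟩ := hx
    exact ⟨h1 x hxE, m, hm, by rw [← map_pow]; exact comm_map φ E h1 _ hmx⟩
  have hI2 := iso_compat φ hfi E h1 h2 (hN E le_rfl)
  set I := iso E with hI
  have hIE : I ≤ E := iso_le E
  -- first step: `I`
  have s : Lifts φ I hI1 := hP Γ φ hφ hfi I hI1 hI2 (fun H hH => hN H (hH.trans hIE))
    ⁅E, E⁆ (comm_le_iso E) (comm_relIndex_iso E (hN E le_rfl)) hE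
  -- second step: `E / I`
  set π := QuotientGroup.mk' I with hπ
  have hπs : Surjective π := QuotientGroup.mk'_surjective I
  have memE' : ∀ x, π x ∈ E.map π ↔ x ∈ E := by
    intro x
    constructor
    · rintro ⟨y, hy, hyx⟩
      have : y⁻¹ * x ∈ I := QuotientGroup.eq.1 hyx
      have h3 := E.mul_mem hy (hIE this)
      simpa using h3
    · intro hx; exact ⟨x, hx, rfl⟩
  have hE'n : (E.map π).Normal := Subgroup.Normal.map inferInstance π hπs
  have h1' : ∀ x ∈ E.map π, quot φ I hI1 x ∈ E.map π := by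
    rintro _ ⟨x, hx, rfl⟩
    exact ⟨φ x, h1 x hx, rfl⟩
  have h2' : ∀ x, quot φ I hI1 x ∈ E.map π → x ∈ E.map π := by
    intro q hq
    obtain ⟨x, rfl⟩ := hπs q
    have : π (φ x) ∈ E.map π := hq
    rw [memE'] at this ⊢
    exact h2 x this
  have hc : ∀ a ∈ E.map π, ∀ b ∈ E.map π, a * b = b * a := by
    rintro _ ⟨a, ha, rfl⟩ _ ⟨b, hb, rfl⟩
    rw [← map_mul, ← map_mul]
    apply QuotientGroup.eq.2
    apply comm_le_iso E
    have h3 := Subgroup.commutator_mem_commutator (E.inv_mem hb) (E.inv_mem ha)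
    rw [commutatorElement_def] at h3
    have e1 : (a * b)⁻¹ * (b * a) = b⁻¹ * a⁻¹ * b⁻¹⁻¹ * a⁻¹⁻¹ := by group
    rw [e1]; exact h3
  have hfg : (E.map π).FG := by
    have h3 : Group.FG E := (Group.fg_iff_subgroup_fg _).2 (hN E le_rfl)
    exact (Group.fg_iff_subgroup_fg _).1 (Group.fg_of_surjective (π.subgroupMap_surjective E))
  have t : Lifts (quot φ I hI1) (E.map π) h1' :=
    abel_step (quot φ I hI1) (E.map π) h1' h2' hc hfg
  exact two_step φ I hI1 E h1 hIE hE'n h1' s t

/-- Homomorphisms from a finitely generated group to a finite group are finite in number. -/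
theorem finite_hom (E F : Type*) [Group E] [Group F] [Finite F] (hE : Group.FG E) :
    Finite (E →* F) := by
  obtain ⟨S, hS, hSf⟩ := Group.fg_iff.1 hE
  have : Finite S := hSf
  apply Finite.of_injective (fun f : E →* F => fun s : S => f s.1)
  intro f g hfg
  apply MonoidHom.eq_of_eqOn_dense hS
  intro x hx
  exact congrFun hfg ⟨x, hx⟩

/-- **The main induction step.** -/
theorem P_succ (d : ℕ) (hP : P.{u} d) : P.{u} (d + 1) := by
  classical
  intro Γ _ φ hφ hfi E _ h1 h2 hN S hSE hSfi hS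
  have hEfg : Group.FG E := (Group.fg_iff_subgroup_fg _).2 (hN E le_rfl)
  have hSfin : (S.subgroupOf E).FiniteIndex := ⟨hSfi⟩
  have hSq : Finite (E ⧸ S.subgroupOf E) := inferInstance
  let F := Equiv.Perm (E ⧸ S.subgroupOf E)
  have hF : Finite F := inferInstance
  have hHom : Finite (E →* F) := finite_hom E F hEfg
  -- the intersection of the kernels of all homomorphisms `E → F`
  set K : Subgroup E := ⨅ f : E →* F, f.ker with hK
  have hKfi : K.FiniteIndex := by
    have h3 : ∀ f : E →* F, f.ker.FiniteIndex := fun f => inferInstance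
    exact Subgroup.finiteIndex_iInf h3
  set E0 : Subgroup Γ := K.map E.subtype with hE0d
  have memE0 : ∀ x, x ∈ E0 ↔ ∃ hx : x ∈ E, ∀ f : E →* F, f ⟨x, hx⟩ = 1 := by
    intro x
    constructor
    · rintro ⟨y, hy, rfl⟩
      refine ⟨y.2, fun f => ?_⟩
      exact (Subgroup.mem_iInf.1 hy) f
    · rintro ⟨hx, h⟩
      exact ⟨⟨x, hx⟩, Subgroup.mem_iInf.2 h, rfl⟩
  have hE0 : E0 ≤ E := fun x hx => ((memE0 x).1 hx).1
  have hE0n : E0.Normal := by
    constructor
    intro x hx g
    obtain ⟨hxE, hxf⟩ := (memE0 x).1 hx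
    rw [memE0]
    refine ⟨(inferInstance : E.Normal).conj_mem x hxE g, fun f => ?_⟩
    let c : E →* E :=
      { toFun := fun y => ⟨g * y.1 * g⁻¹, (inferInstance : E.Normal).conj_mem y.1 y.2 g⟩
        map_one' := by apply Subtype.ext; simp
        map_mul' := by
          intro a b
          apply Subtype.ext
          change g * (a.1 * b.1) * g⁻¹ = (g * a.1 * g⁻¹) * (g * b.1 * g⁻¹)
          group }
    exact hxf (f.comp c)
  have h10 : ∀ x ∈ E0, φ x ∈ E0 := by
    intro x hx
    obtain ⟨hxE, hxf⟩ := (memE0 x).1 hx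
    rw [memE0]
    refine ⟨h1 x hxE, fun f => ?_⟩
    let φE : E →* E := (φ.comp E.subtype).codRestrict E (fun y => h1 y.1 y.2)
    exact hxf (f.comp φE)
  have hE0S : E0 ≤ S := by
    intro x hx
    obtain ⟨hxE, hxf⟩ := (memE0 x).1 hx
    have h3 := hxf (MulAction.toPermHom E (E ⧸ S.subgroupOf E))
    have h4 := congrArg (fun p : Equiv.Perm (E ⧸ S.subgroupOf E) =>
      p (QuotientGroup.mk (1 : E))) h3
    have h5 : (QuotientGroup.mk ((⟨x, hxE⟩ : E) * 1) : E ⧸ S.subgroupOf E) =
        QuotientGroup.mk (1 : E) := h4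
    rw [mul_one] at h5
    have h6 := QuotientGroup.eq.1 h5.symm
    rw [inv_one, one_mul] at h6
    exact h6
  have hE0fi : E0.relIndex E ≠ 0 := by
    have h3 : E0.subgroupOf E = K := by
      ext y
      rw [Subgroup.mem_subgroupOf, memE0]
      constructor
      · rintro ⟨hy, h⟩; exact Subgroup.mem_iInf.2 h
      · intro h; exact ⟨y.2, Subgroup.mem_iInf.1 h⟩
    rw [Subgroup.relIndex, h3]
    exact hKfi.index_ne_zero
  have hE0d' : der (d + 1) E0 = ⊥ := by
    rw [eq_bot_iff, ← hS]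
    exact der_mono (d + 1) _ _ hE0S
  refine virt_step φ E h1 E0 h10 hφ h2 hE0 hE0fi ?_
  -- now apply the solvable step to `pre φ E0`
  set Γ1 := pre φ E0 h10 with hΓ1
  have hle : E0 ≤ Γ1 := le_pre φ E0 h10
  refine solvable_step d hP (res φ E0 h10) ?_ ?_ (inner φ E0 h10) (inner_map φ E0 h10) ?_ ?_ ?_
  · intro x y hxy
    exact Subtype.ext (hφ (congrArg Subtype.val hxy))
  · -- finite index of the image
    have h3 : (E0.map φ).relIndex E0 ≠ 0 := by
      have h4 : (E0.map φ).relIndex (E.map φ) ≠ 0 := by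
        rw [Subgroup.relIndex_map_map_of_injective _ _ hφ]; exact hE0fi
      have h5 : (E0.map φ).relIndex E ≠ 0 :=
        Subgroup.relIndex_ne_zero_trans h4 (relIndex_map_ne_zero φ hfi E h2)
      intro h6
      exact h5 (Subgroup.relIndex_eq_zero_of_le_right hE0 h6)
    have h4 : ((E0.map φ).subgroupOf E0).FiniteIndex := ⟨h3⟩
    have h5 : Finite (E0 ⧸ (E0.map φ).subgroupOf E0) := inferInstance
    have hdec : ∀ x : Γ1, ∃ e : E0, ∃ y : Γ1, x.1 = e.1 * φ y.1 := by
      intro x
      obtain ⟨r, hr, hrx⟩ := core_surj_of_finite φ E E0 h10 hE0fi h2 hE0 _ x.2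
      obtain ⟨y, rfl⟩ := QuotientGroup.mk'_surjective E0 r
      have h6 : (φ y)⁻¹ * x.1 ∈ E0 := QuotientGroup.eq.1 hrx
      have h7 := hE0n.conj_mem _ h6 (φ y)
      refine ⟨⟨_, h7⟩, ⟨y, hr⟩, ?_⟩
      simp
    choose e y hey using hdec
    have h6 : Finite (Γ1 ⧸ (res φ E0 h10).range) := by
      apply Finite.of_injective
        (fun q : Γ1 ⧸ (res φ E0 h10).range =>
          (QuotientGroup.mk (e q.out) : E0 ⧸ (E0.map φ).subgroupOf E0))
      intro q r hqr
      have h7 : (e q.out)⁻¹ * e r.out ∈ (E0.map φ).subgroupOf E0 := QuotientGroup.eq.1 hqr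
      obtain ⟨w, hw, hwe⟩ := h7
      have hwe' : φ w = (e q.out).1⁻¹ * (e r.out).1 := hwe
      have h8 : q.out⁻¹ * r.out ∈ (res φ E0 h10).range := by
        refine ⟨(y q.out)⁻¹ * ⟨w, hle hw⟩ * y r.out, ?_⟩
        apply Subtype.ext
        change φ ((y q.out).1⁻¹ * w * (y r.out).1) = (q.out).1⁻¹ * (r.out).1
        rw [map_mul, map_mul, map_inv, hwe', hey q.out, hey r.out]
        group
      rw [← QuotientGroup.eq, QuotientGroup.out_eq', QuotientGroup.out_eq'] at h8
      exact h8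
    exact Subgroup.finiteIndex_of_finite_quotient
  · -- compatibility
    intro x hx
    have h3 : φ x.1 ∈ E0 := hx
    have h4 : QuotientGroup.mk' E0 x.1 = 1 := by
      apply core_inj_of_finite φ E E0 h10 hE0fi h2 hE0 _ x.2
      exact (QuotientGroup.eq_one_iff _).2 h3
    exact (QuotientGroup.eq_one_iff (N := E0) x.1).1 h4
  · -- maximal condition
    intro H hH
    have h3 : (H.map Γ1.subtype).FG := by
      apply hN
      rintro _ ⟨x, hx, rfl⟩
      exact hE0 (hH hx)
    have h4 : Group.FG (H.map Γ1.subtype) := (Group.fg_iff_subgroup_fg _).2 h3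
    have e5 : H ≃* H.map Γ1.subtype :=
      H.equivMapOfInjective _ (Subgroup.subtype_injective _)
    exact (Group.fg_iff_subgroup_fg _).1
      (Group.fg_of_surjective (f := e5.symm.toMonoidHom) e5.symm.surjective)
  · exact der_subgroupOf (d + 1) E0 Γ1 hle hE0d'

theorem P_all (d : ℕ) : P.{u} d := by
  induction d with
  | zero => exact P_zero
  | succ d ih => exact P_succ d ih

end Solv

/-- **Main theorem.** -/
theorem main {Γ : Type u} [Group Γ] (φ : Γ →* Γ) (hφ : Injective φ)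
    (hfi : φ.range.FiniteIndex) (E : Subgroup Γ) [E.Normal] (h1 : ∀ x ∈ E, φ x ∈ E)
    (h2 : ∀ x, φ x ∈ E → x ∈ E) (hN : ∀ H : Subgroup Γ, H ≤ E → H.FG)
    (hS : ∃ S : Subgroup Γ, S ≤ E ∧ S.relIndex E ≠ 0 ∧ Group.IsSolvable S) :
    Lifts φ E h1 := by
  obtain ⟨S, hSE, hSfi, hSs⟩ := hS
  obtain ⟨d, hd⟩ := der_of_solvable S hSs
  exact P_all d Γ φ hφ hfi E h1 h2 hN S hSE hSfi hd

end MP_52ecc8_gt_h60
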