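import Pool.Agent.Lib.MP_52ecc8_gt_h60.Abel

namespace MP_52ecc8_gt_h60

open Function

universe u v

section Basics

variable {Γ : Type u} [Group Γ] (φ : Γ →* Γ)

theorem mem_core {g : Γ} : g ∈ core φ ↔ ∀ k : ℕ, ∃ x : Γ, φ^[k] x = g := Iff.rfl

theorem core_map {g : Γ} (hg : g ∈ core φ) : φ g ∈ core φ := by
  intro k
  obtain ⟨x, rfl⟩ := hg k
  exact ⟨φ x, by rw [← iterate_succ_apply, iterate_succ_apply']⟩

theorem core_surj (hφ : Injective φ) {g : Γ} (hg : g ∈ core φ) : ∃ h ∈ core φ, φ h = g := by
  obtain ⟨y, hy⟩ := hg 1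
  refine ⟨y, ?_, hy⟩
  intro k
  obtain ⟨z, hz⟩ := hg (k + 1)
  refine ⟨z, ?_⟩
  apply hφ
  rw [iterate_succ_apply'] at hz
  rw [hz, ← hy]; rfl

theorem core_surj_iter (hφ : Injective φ) (k : ℕ) {g : Γ} (hg : g ∈ core φ) :
    ∃ h ∈ core φ, φ^[k] h = g := by
  induction k with
  | zero => exact ⟨g, hg, rfl⟩
  | succ k ih =>
    obtain ⟨h, hh, rfl⟩ := ih
    obtain ⟨h', hh', rfl⟩ := core_surj φ hφ hh
    exact ⟨h', hh', by rw [iterate_succ_apply]⟩

/-- If `φ^k x` is in the core, so is `x`. -/
theorem mem_core_of_iter (hφ : Injective φ) (k : ℕ) {x : Γ} (hx : φ^[k] x ∈ core φ) :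
    x ∈ core φ := by
  obtain ⟨h, hh, he⟩ := core_surj_iter φ hφ k hx
  have : h = x := hφ.iterate k he
  rwa [← this]

theorem core_equiv {Γ' : Type v} [Group Γ'] (φ' : Γ' →* Γ') (e : Γ ≃* Γ')
    (h : ∀ x, φ' (e x) = e (φ x)) : Nonempty (core φ ≃* core φ') := by
  have hk : ∀ (k : ℕ) x, φ'^[k] (e x) = e (φ^[k] x) := by
    intro k
    induction k with
    | zero => intro x; rfl
    | succ k ih => intro x; rw [iterate_succ_apply, h, ih, iterate_succ_apply]
  have hmap : (core φ).map e.toMonoidHom = core φ' := by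
    ext y
    constructor
    · rintro ⟨x, hx, rfl⟩ k
      obtain ⟨z, rfl⟩ := hx k
      exact ⟨e z, hk k z⟩
    · intro hy
      refine ⟨e.symm y, ?_, by simp⟩
      intro k
      obtain ⟨z, rfl⟩ := hy k
      refine ⟨e.symm z, ?_⟩
      apply e.injective
      rw [← hk]; simp
  exact ⟨(e.subgroupMap (core φ)).trans (MulEquiv.subgroupCongr hmap)⟩

variable (E : Subgroup Γ) [E.Normal] (h1 : ∀ x ∈ E, φ x ∈ E)

theorem quot_mk (x : Γ) : quot φ E h1 (QuotientGroup.mk' E x) = QuotientGroup.mk' E (φ x) := rfl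

theorem quot_iter (k : ℕ) (x : Γ) :
    (quot φ E h1)^[k] (QuotientGroup.mk' E x) = QuotientGroup.mk' E (φ^[k] x) := by
  induction k generalizing x with
  | zero => rfl
  | succ k ih => rw [iterate_succ_apply, quot_mk, ih, iterate_succ_apply]

theorem quot_injective (h2 : ∀ x, φ x ∈ E → x ∈ E) : Injective (quot φ E h1) := by
  rw [injective_iff_map_eq_one]
  intro q hq
  obtain ⟨x, rfl⟩ := QuotientGroup.mk'_surjective E q
  rw [quot_mk] at hq
  exact (QuotientGroup.eq_one_iff _).2 (h2 x ((QuotientGroup.eq_one_iff _).1 hq))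

/-- The core of `φ` maps into the core of the quotient map. -/
theorem mk_mem_core {x : Γ} (hx : x ∈ core φ) : QuotientGroup.mk' E x ∈ core (quot φ E h1) := by
  intro k
  obtain ⟨y, rfl⟩ := hx k
  exact ⟨QuotientGroup.mk' E y, quot_iter φ E h1 k y⟩

end Basics

section Abel

variable {Γ : Type u} [Group Γ] (φ : Γ →* Γ)
  (E : Subgroup Γ) [E.Normal] (h1 : ∀ x ∈ E, φ x ∈ E) (h2 : ∀ x, φ x ∈ E → x ∈ E)

/-- The preimage in `Γ` of the core of the quotient map. -/
def pre : Subgroup Γ := (core (quot φ E h1)).comap (QuotientGroup.mk' E)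

theorem mem_pre {x : Γ} : x ∈ pre φ E h1 ↔ QuotientGroup.mk' E x ∈ core (quot φ E h1) := Iff.rfl

theorem le_pre : E ≤ pre φ E h1 := by
  intro x hx
  rw [mem_pre]
  have : QuotientGroup.mk' E x = 1 := (QuotientGroup.eq_one_iff _).2 hx
  rw [this]; exact Subgroup.one_mem _

theorem pre_map (x : Γ) (hx : x ∈ pre φ E h1) : φ x ∈ pre φ E h1 := by
  rw [mem_pre] at hx ⊢
  exact core_map (quot φ E h1) hx

/-- The restriction of `φ` to `pre`. -/
def res : pre φ E h1 →* pre φ E h1 :=
  (φ.comp (pre φ E h1).subtype).codRestrict (pre φ E h1) (fun x => pre_map φ E h1 x.1 x.2)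

theorem res_coe (x : pre φ E h1) : ((res φ E h1 x : pre φ E h1) : Γ) = φ x.1 := rfl

theorem res_iter (k : ℕ) (x : pre φ E h1) :
    (((res φ E h1)^[k] x : pre φ E h1) : Γ) = φ^[k] x.1 := by
  induction k generalizing x with
  | zero => rfl
  | succ k ih => rw [iterate_succ_apply, ih, iterate_succ_apply]; rfl

include h2 in
theorem mem_core_res (x : pre φ E h1) : x ∈ core (res φ E h1) ↔ x.1 ∈ core φ := by
  constructor
  · intro hx k
    obtain ⟨y, hy⟩ := hx k
    exact ⟨y.1, by rw [← res_iter, hy]⟩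
  · intro hx k
    obtain ⟨y, hy⟩ := hx k
    have hy' : y ∈ pre φ E h1 := by
      rw [mem_pre]
      apply mem_core_of_iter (quot φ E h1) (quot_injective φ E h1 h2) k
      rw [quot_iter, hy]
      exact x.2
    exact ⟨⟨y, hy'⟩, Subtype.ext (by rw [res_iter]; exact hy)⟩

include h2 in
/-- The core of the restriction is the core. -/
theorem core_res_equiv : Nonempty (core (res φ E h1) ≃* core φ) := by
  have hle : ∀ x ∈ core φ, x ∈ pre φ E h1 := fun x hx => mk_mem_core φ E h1 hx
  refine ⟨{ toFun := fun x => ⟨x.1.1, (mem_core_res φ E h1 h2 x.1).1 x.2⟩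
            invFun := fun x => ⟨⟨x.1, hle x.1 x.2⟩, (mem_core_res φ E h1 h2 _).2 x.2⟩
            left_inv := fun x => rfl
            right_inv := fun x => rfl
            map_mul' := fun x y => rfl }⟩

/-- The projection of `pre` onto the core of the quotient map. -/
def proj : pre φ E h1 →* core (quot φ E h1) :=
  ((QuotientGroup.mk' E).comp (pre φ E h1).subtype).codRestrict _ (fun x => x.2)

theorem proj_surj : Surjective (proj φ E h1) := by
  rintro ⟨q, hq⟩
  obtain ⟨x, rfl⟩ := QuotientGroup.mk'_surjective E q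
  exact ⟨⟨x, hq⟩, rfl⟩

theorem proj_ker (x : pre φ E h1) : x ∈ (proj φ E h1).ker ↔ x.1 ∈ E := by
  rw [MonoidHom.mem_ker]
  constructor
  · intro h
    have := congrArg Subtype.val h
    exact (QuotientGroup.eq_one_iff _).1 this
  · intro h
    apply Subtype.ext
    exact (QuotientGroup.eq_one_iff _).2 h

include h2 in
theorem abel_finiteIndex (hEc : ∀ a ∈ E, ∀ b ∈ E, a * b = b * a) (hEfg : E.FG)
    (hQ : Group.FG (core (quot φ E h1))) :
    (core (res φ E h1) ⊔ (proj φ E h1).ker).FiniteIndex := by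
  classical
  let j : CommGroup E :=
    { (inferInstance : Group E) with mul_comm := fun a b => Subtype.ext (hEc a.1 a.2 b.1 b.2) }
  have hEfg' : Group.FG E := (Group.fg_iff_subgroup_fg _).2 hEfg
  let i : Multiplicative (Additive E) →* pre φ E h1 :=
    { toFun := fun a => ⟨(a.toAdd.toMul : E).1, le_pre φ E h1 (a.toAdd.toMul : E).2⟩
      map_one' := rfl
      map_mul' := fun a b => rfl }
  let α : Additive E →+ Additive E :=
    { toFun := fun a => Additive.ofMul ⟨φ (a.toMul : E).1, h1 _ (a.toMul : E).2⟩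
      map_zero' := by
        apply Additive.toMul.injective
        apply Subtype.ext
        exact map_one φ
      map_add' := by
        intro a b
        apply Additive.toMul.injective
        apply Subtype.ext
        exact map_mul φ _ _ }
  have hrange : ∀ x : pre φ E h1, x ∈ i.range ↔ x.1 ∈ E := by
    intro x
    constructor
    · rintro ⟨a, rfl⟩; exact (a.toAdd.toMul : E).2
    · intro hx
      exact ⟨Multiplicative.ofAdd (Additive.ofMul ⟨x.1, hx⟩), rfl⟩
  have hker : i.range = (proj φ E h1).ker := by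
    ext x; rw [hrange, proj_ker]
  have hkerfg : (proj φ E h1).ker.FG := by
    rw [← hker, ← Group.fg_iff_subgroup_fg]
    have : Group.FG (Multiplicative (Additive E)) := hEfg'
    infer_instance
  have hpre : Group.FG (pre φ E h1) := fg_of_extension (proj φ E h1) (proj_surj φ E h1) hkerfg hQ
  have hA : Module.Finite ℤ (Additive E) := by
    rw [Module.Finite.iff_addGroup_fg]
    exact GroupFG.iff_add_fg.1 hEfg'
  rw [← hker]
  apply finiteIndex_aux (res φ E h1) i α
  · intro a b hab
    have h := congrArg (fun z : pre φ E h1 => z.1) hab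
    exact Multiplicative.toAdd.injective (Additive.toMul.injective (Subtype.ext h))
  · rw [hker]; infer_instance
  · intro a; rfl
  · intro x hx
    rw [hrange] at hx ⊢
    exact h2 _ hx
  · intro g
    obtain ⟨q, hq, hqg⟩ := core_surj (quot φ E h1) (quot_injective φ E h1 h2) g.2
    obtain ⟨h, rfl⟩ := QuotientGroup.mk'_surjective E q
    rw [quot_mk] at hqg
    have hmem : g.1 * (φ h)⁻¹ ∈ E := by
      rw [← QuotientGroup.eq_one_iff (N := E)]
      have h3 : QuotientGroup.mk' E (g.1 * (φ h)⁻¹) = 1 := by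
        rw [map_mul, map_inv, hqg]
        simp
      exact h3
    refine ⟨⟨h, hq⟩, g * (res φ E h1 ⟨h, hq⟩)⁻¹, ?_, by group⟩
    rw [hrange]
    exact hmem

include h2 in
/-- **Abelian step**: the finiteness properties of `G(φ̄)` lift to `G(φ)`. -/
theorem abel_step (hEc : ∀ a ∈ E, ∀ b ∈ E, a * b = b * a) (hEfg : E.FG) :
    (Group.FG (core (quot φ E h1)) → Group.FG (core φ)) ∧
    (Group.IsFinitelyPresented (core (quot φ E h1)) →
      Group.IsFinitelyPresented (core φ)) := by
  classical
  obtain ⟨e⟩ := core_res_equiv φ E h1 h2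
  have hEfg' : Group.FG E := (Group.fg_iff_subgroup_fg _).2 hEfg
  -- the map from `C = core (res)` onto its image in `core (quot)`
  set C := core (res φ E h1) with hC
  let f : C →* C.map (proj φ E h1) := (proj φ E h1).subgroupMap C
  have hf : Surjective f := (proj φ E h1).subgroupMap_surjective C
  have hfE : ∀ x : C, x ∈ f.ker → x.1.1 ∈ E := by
    intro x hx
    have := congrArg Subtype.val ((MonoidHom.mem_ker).1 hx)
    exact (proj_ker φ E h1 x.1).1 this
  -- the kernel is isomorphic to a subgroup of `E`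
  let κ : f.ker →* E :=
    { toFun := fun x => ⟨x.1.1.1, hfE x.1 x.2⟩
      map_one' := rfl
      map_mul' := fun _ _ => rfl }
  have hκ : Injective κ := by
    intro x y hxy
    have h := congrArg (fun z : E => z.1) hxy
    exact Subtype.ext (Subtype.ext (Subtype.ext h))
  have hEcc : ∀ a b : E, a * b = b * a := fun a b => Subtype.ext (hEc a.1 a.2 b.1 b.2)
  have hκfg : Group.FG κ.range := (Group.fg_iff_subgroup_fg _).2 (noeth_of_comm' hEcc hEfg' _)
  have hkerfg : Group.FG f.ker :=
    Group.fg_of_surjective (f := (MonoidHom.ofInjective hκ).symm.toMonoidHom)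
      (MonoidHom.ofInjective hκ).symm.surjective
  have hkerc : ∀ a b : f.ker, a * b = b * a := by
    intro a b
    apply hκ
    rw [map_mul, map_mul, hEcc]
  have hkerfp : Group.IsFinitelyPresented f.ker := fp_of_comm' hkerc hkerfg
  have hindex : Group.FG (core (quot φ E h1)) → (C.map (proj φ E h1)).FiniteIndex := by
    intro hQ
    have h := abel_finiteIndex φ E h1 h2 hEc hEfg hQ
    constructor
    rw [Subgroup.index_map, MonoidHom.range_eq_top.2 (proj_surj φ E h1)]
    simp only [Subgroup.index_top, mul_one]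
    exact h.index_ne_zero
  constructor
  · intro hQ
    have h := hindex hQ
    have hB : Group.FG (C.map (proj φ E h1)) := Subgroup.fg_of_index_ne_zero _
    have hCfg : Group.FG C := fg_of_extension f hf ((Group.fg_iff_subgroup_fg _).1 hkerfg) hB
    exact Group.fg_of_surjective (f := e.toMonoidHom) e.surjective
  · intro hQ
    have hQfg : Group.FG (core (quot φ E h1)) := by
      obtain ⟨n, p, hp, -⟩ := hQ.out
      exact Group.fg_of_surjective hp
    have h := hindex hQfg
    have hB : Group.IsFinitelyPresented (C.map (proj φ E h1)) := fp_of_finiteIndex _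
    have hCfp : Group.IsFinitelyPresented C := fp_of_extension f hf hkerfp hB
    exact Group.IsFinitelyPresented.equiv e

end Abel

section Fin

variable {Γ : Type u} [Group Γ] (φ : Γ →* Γ) (hφ : Injective φ)
  (E : Subgroup Γ) [E.Normal] (h1 : ∀ x ∈ E, φ x ∈ E)

include hφ in
/-- **Finite step**: the case of a finite normal subgroup. -/
theorem fin_step (hE : Finite E) :
    (Group.FG (core (quot φ E h1)) → Group.FG (core φ)) ∧
    (Group.IsFinitelyPresented (core (quot φ E h1)) →
      Group.IsFinitelyPresented (core φ)) := by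
  classical
  -- `φ` permutes `E`
  have hsurj : ∀ x ∈ E, ∃ y ∈ E, φ y = x := by
    let r : E → E := fun x => ⟨φ x.1, h1 x.1 x.2⟩
    have hr : Injective r := by
      intro a b hab
      exact Subtype.ext (hφ (congrArg Subtype.val hab))
    have hr' : Surjective r := Finite.surjective_of_injective hr
    intro x hx
    obtain ⟨y, hy⟩ := hr' ⟨x, hx⟩
    exact ⟨y.1, y.2, congrArg Subtype.val hy⟩
  have hsurjk : ∀ k : ℕ, ∀ x ∈ E, ∃ y ∈ E, φ^[k] y = x := by
    intro k
    induction k with
    | zero => intro x hx; exact ⟨x, hx, rfl⟩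
    | succ k ih =>
      intro x hx
      obtain ⟨y, hy, rfl⟩ := ih x hx
      obtain ⟨z, hz, rfl⟩ := hsurj y hy
      exact ⟨z, hz, by rw [iterate_succ_apply]⟩
  let f : core φ →* core (quot φ E h1) :=
    ((QuotientGroup.mk' E).comp (core φ).subtype).codRestrict _
      (fun x => mk_mem_core φ E h1 x.2)
  have hf : Surjective f := by
    rintro ⟨q, hq⟩
    obtain ⟨g, rfl⟩ := QuotientGroup.mk'_surjective E q
    have hg : g ∈ core φ := by
      intro k
      obtain ⟨q', hq'⟩ := hq k
      obtain ⟨x, rfl⟩ := QuotientGroup.mk'_surjective E q'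
      rw [quot_iter] at hq'
      have hmem : (φ^[k] x)⁻¹ * g ∈ E := QuotientGroup.eq.1 hq'
      obtain ⟨y, hy, hyk⟩ := hsurjk k _ hmem
      exact ⟨x * y, by rw [iterate_map_mul φ k, hyk]; group⟩
    exact ⟨⟨g, hg⟩, rfl⟩
  have hker : Finite f.ker := by
    let κ : f.ker → E := fun x => ⟨x.1.1, by
      have := congrArg Subtype.val ((MonoidHom.mem_ker).1 x.2)
      exact (QuotientGroup.eq_one_iff _).1 this⟩
    apply Finite.of_injective κ
    intro x y hxy
    have h := congrArg (fun z : E => z.1) hxy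
    exact Subtype.ext (Subtype.ext h)
  constructor
  · intro hQ
    exact fg_of_extension f hf ((Group.fg_iff_subgroup_fg _).1 inferInstance) hQ
  · intro hQ
    exact fp_of_extension f hf inferInstance hQ

end Fin

end MP_52ecc8_gt_h60
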