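import Pool.Agent.Lib.MP_52ecc8_gt_h60.Step

namespace MP_52ecc8_gt_h60

open Function

universe u v

/-- The finiteness properties of the core of the quotient map lift to the core of `φ`. -/
def Lifts {Γ : Type u} [Group Γ] (φ : Γ →* Γ) (E : Subgroup Γ) [E.Normal]
    (h1 : ∀ x ∈ E, φ x ∈ E) : Prop :=
  (Group.FG (core (quot φ E h1)) → Group.FG (core φ)) ∧
  (Group.IsFinitelyPresented (core (quot φ E h1)) → Group.IsFinitelyPresented (core φ))

/-- Compactness: a decreasing sequence of nonempty finite sets has nonempty intersection. -/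
theorem exists_forall_of_antitone {α : Type*} (Y : ℕ → Set α) (h0 : (Y 0).Finite)
    (hY : ∀ k, Y (k + 1) ⊆ Y k) (hne : ∀ k, (Y k).Nonempty) : ∃ y, ∀ k, y ∈ Y k := by
  classical
  by_contra hcon
  push Not at hcon
  choose K hK using hcon
  have hmono : ∀ j k, j ≤ k → Y k ⊆ Y j := by
    intro j k hjk
    induction k, hjk using Nat.le_induction with
    | base => exact subset_rfl
    | succ k _ ih => exact (hY k).trans ih
  obtain ⟨y, hy⟩ := hne (h0.toFinset.sup K)
  have hy0 : y ∈ Y 0 := hmono 0 _ (Nat.zero_le _) hy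
  have hle : K y ≤ h0.toFinset.sup K := Finset.le_sup (h0.mem_toFinset.2 hy0)
  exact hK y (hmono _ _ hle hy)

/-- A finitely generated subgroup of finite index. -/
theorem fg_of_finiteIndex_fg {G : Type*} [Group G] (H : Subgroup G) [hH : H.FiniteIndex]
    (h : Group.FG H) : Group.FG G := by
  classical
  obtain ⟨S, hS, hSf⟩ := (Subgroup.fg_iff _).1 ((Group.fg_iff_subgroup_fg _).1 h)
  have hfin : Finite (G ⧸ H) := inferInstance
  refine Group.fg_iff.2 ⟨S ∪ Set.range (fun q : G ⧸ H => q.out), ?_,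
    hSf.union (Set.finite_range _)⟩
  rw [eq_top_iff]
  intro g _
  set K := Subgroup.closure (S ∪ Set.range (fun q : G ⧸ H => q.out)) with hK
  have h1 : H ≤ K := by rw [← hS]; exact Subgroup.closure_mono Set.subset_union_left
  have h2 : (QuotientGroup.mk g : G ⧸ H).out ∈ K := Subgroup.subset_closure (Or.inr ⟨_, rfl⟩)
  have h3 : ((QuotientGroup.mk g : G ⧸ H).out)⁻¹ * g ∈ H := by
    rw [← QuotientGroup.eq, QuotientGroup.out_eq']
  have := K.mul_mem h2 (h1 h3)
  simpa using this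

/-- A group with a finitely presented subgroup of finite index is finitely presented. -/
theorem fp_of_finiteIndex_fp {G : Type*} [Group G] (H : Subgroup G) [hH : H.FiniteIndex]
    (h : Group.IsFinitelyPresented H) : Group.IsFinitelyPresented G := by
  classical
  set N := H.normalCore with hN
  have hNfi : N.FiniteIndex := inferInstance
  have hNH : N ≤ H := H.normalCore_le
  have h1 : (N.subgroupOf H).FiniteIndex := inferInstance
  have h2 : Group.IsFinitelyPresented (N.subgroupOf H) := fp_of_finiteIndex _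
  have h3 : Group.IsFinitelyPresented N :=
    Group.IsFinitelyPresented.equiv (Subgroup.subgroupOfEquivOfLe hNH)
  have hfin : Finite (G ⧸ N) := inferInstance
  exact fp_of_extension (QuotientGroup.mk' N) (QuotientGroup.mk'_surjective N)
    (by rw [QuotientGroup.ker_mk']; exact h3) inferInstance

/-- A decreasing sequence of subgroups of bounded index has an intersection of finite index. -/
theorem finiteIndex_of_bounded {G : Type*} [Group G] (C : ℕ → Subgroup G)
    (hC : ∀ k, C (k + 1) ≤ C k) (m : ℕ) (h0 : ∀ k, (C k).index ≠ 0) (hm : ∀ k, (C k).index ≤ m)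
    (D : Subgroup G) (hD : ∀ x, x ∈ D ↔ ∀ k, x ∈ C k) : D.FiniteIndex := by
  have hmono : ∀ k, (C k).index ≤ (C (k + 1)).index := by
    intro k
    exact Nat.le_of_dvd (Nat.pos_of_ne_zero (h0 _)) (Subgroup.index_dvd_of_le (hC k))
  have hmono' : Monotone (fun k => (C k).index) := monotone_nat_of_le_succ hmono
  obtain ⟨K, hK⟩ : ∃ K, ∀ k, K ≤ k → (C k).index = (C K).index := by
    by_contra hcon
    push Not at hcon
    choose f hf1 hf2 using hcon
    have hlt : ∀ K, (C K).index < (C (f K)).index := fun K =>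
      lt_of_le_of_ne (hmono' (hf1 K)) (Ne.symm (hf2 K))
    have hgrow : ∀ n, n ≤ (C (f^[n] 0)).index := by
      intro n
      induction n with
      | zero => exact Nat.zero_le _
      | succ n ih => rw [iterate_succ_apply']; exact lt_of_le_of_lt ih (hlt _)
    have := hgrow (m + 1)
    have := hm (f^[m + 1] 0)
    omega
  have hmonoC : ∀ j k, j ≤ k → C k ≤ C j := by
    intro j k hjk
    induction k, hjk using Nat.le_induction with
    | base => exact le_rfl
    | succ k _ ih => exact (hC k).trans ih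
  have heq : ∀ k, K ≤ k → C k = C K := by
    intro k hk
    have hle := hmonoC K k hk
    apply le_antisymm hle
    have h1 := Subgroup.relIndex_mul_index hle
    rw [hK k hk] at h1
    have h2 : (C k).relIndex (C K) = 1 := by
      have := Nat.pos_of_ne_zero (h0 K)
      exact Nat.eq_of_mul_eq_mul_right this (by rw [h1, one_mul])
    exact Subgroup.relIndex_eq_one.1 h2
  have hDK : D = C K := by
    ext x
    rw [hD]
    constructor
    · intro h; exact h K
    · intro h k
      rcases le_total K k with hk | hk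
      · rw [heq k hk]; exact h
      · exact hmonoC k K hk h
  rw [hDK]
  exact ⟨h0 K⟩

section Virt

variable {Γ : Type u} [Group Γ] (φ : Γ →* Γ)
  (E : Subgroup Γ) [E.Normal] (h1 : ∀ x ∈ E, φ x ∈ E)
  (E0 : Subgroup Γ) [E0.Normal] (h10 : ∀ x ∈ E0, φ x ∈ E0)

theorem range_iter_succ {Q : Type*} [Group Q] (ψ : Q →* Q) (k : ℕ) (q : Q)
    (h : ∃ x, ψ^[k + 1] x = q) : ∃ x, ψ^[k] x = q := by
  obtain ⟨x, rfl⟩ := h
  exact ⟨ψ x, by rw [iterate_succ_apply]⟩

omit [E.Normal] in
/-- The image of `E` in `Γ / E0` is finite. -/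
theorem finite_map (hfi : E0.relIndex E ≠ 0) : Finite (E.map (QuotientGroup.mk' E0)) := by
  have h3 : (E0.subgroupOf E).FiniteIndex := ⟨hfi⟩
  have h2 : Finite (E ⧸ E0.subgroupOf E) := inferInstance
  let f : (E ⧸ E0.subgroupOf E) → E.map (QuotientGroup.mk' E0) := fun q =>
    ⟨QuotientGroup.mk' E0 q.out.1, ⟨_, q.out.2, rfl⟩⟩
  apply Finite.of_surjective f
  rintro ⟨_, ⟨x, hx, rfl⟩⟩
  refine ⟨QuotientGroup.mk ⟨x, hx⟩, ?_⟩
  apply Subtype.ext
  change QuotientGroup.mk' E0 _ = QuotientGroup.mk' E0 x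
  apply QuotientGroup.eq.2
  have h3 : ((QuotientGroup.mk (⟨x, hx⟩ : E) : E ⧸ E0.subgroupOf E).out)⁻¹ * ⟨x, hx⟩ ∈
      E0.subgroupOf E := by
    rw [← QuotientGroup.eq, QuotientGroup.out_eq']
  exact h3

/-- (V1) -/
theorem exists_mul_mem_pre (hfi : E0.relIndex E ≠ 0) (x : Γ)
    (hx : x ∈ pre φ E h1) : ∃ e ∈ E, e * x ∈ pre φ E0 h10 := by
  have hfin := finite_map E E0 hfi
  set π := QuotientGroup.mk' E0 with hπ
  set ψ := quot φ E0 h10 with hψ
  let Y : ℕ → Set (Γ ⧸ E0) := fun k => {q | (∃ z, ψ^[k] z = q) ∧ ∃ e ∈ E, q = π (e * x)}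
  obtain ⟨y, hy⟩ := exists_forall_of_antitone Y (by
    have : Y 0 ⊆ (fun f : E.map π => f.1 * π x) '' Set.univ := by
      rintro q ⟨-, e, he, rfl⟩
      exact ⟨⟨π e, ⟨e, he, rfl⟩⟩, trivial, (map_mul π e x).symm⟩
    exact (Set.finite_univ.image _).subset this) (by
    rintro k q ⟨h, he⟩
    exact ⟨range_iter_succ ψ k q h, he⟩) (by
    intro k
    obtain ⟨q, hq⟩ := hx k
    obtain ⟨z, rfl⟩ := QuotientGroup.mk'_surjective E q
    rw [quot_iter] at hq
    have hmem : (φ^[k] z)⁻¹ * x ∈ E := QuotientGroup.eq.1 hq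
    refine ⟨π (φ^[k] z), ⟨π z, quot_iter φ E0 h10 k z⟩, (φ^[k] z) * x⁻¹, ?_, by simp⟩
    have h3 := (inferInstance : E.Normal).conj_mem _ (E.inv_mem hmem) (φ^[k] z)
    have e2 : (φ^[k] z) * ((φ^[k] z)⁻¹ * x)⁻¹ * (φ^[k] z)⁻¹ = (φ^[k] z) * x⁻¹ := by group
    rwa [e2] at h3)
  obtain ⟨-, e, he, hye⟩ := hy 0
  refine ⟨e, he, ?_⟩
  rw [mem_pre]
  intro k
  obtain ⟨h, -⟩ := hy k
  rw [← hπ, ← hye]
  exact h

/-- (V2) -/
theorem core_surj_of_finite (hfi : E0.relIndex E ≠ 0) (h2 : ∀ x, φ x ∈ E → x ∈ E)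
    (hE0 : E0 ≤ E) (q : Γ ⧸ E0)
    (hq : q ∈ core (quot φ E0 h10)) : ∃ r ∈ core (quot φ E0 h10), quot φ E0 h10 r = q := by
  have hfin := finite_map E E0 hfi
  set π := QuotientGroup.mk' E0 with hπ
  set ψ := quot φ E0 h10 with hψ
  have hker : ∀ r, ψ r = 1 → r ∈ E.map π := by
    intro r hr
    obtain ⟨x, rfl⟩ := QuotientGroup.mk'_surjective E0 r
    have : φ x ∈ E0 := (QuotientGroup.eq_one_iff _).1 hr
    exact ⟨x, h2 x (hE0 this), rfl⟩
  obtain ⟨r0, hr0⟩ := hq 1
  have hr0' : ψ r0 = q := hr0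
  let Y : ℕ → Set (Γ ⧸ E0) := fun k => {r | (∃ z, ψ^[k] z = r) ∧ ψ r = q}
  obtain ⟨y, hy⟩ := exists_forall_of_antitone Y (by
    have : Y 0 ⊆ (fun f : E.map π => r0 * f.1) '' Set.univ := by
      rintro r ⟨-, hr⟩
      refine ⟨⟨r0⁻¹ * r, hker _ (by rw [map_mul, map_inv, hr, hr0']; simp)⟩, trivial, ?_⟩
      simp
    exact (Set.finite_univ.image _).subset this) (by
    rintro k r ⟨h, he⟩
    exact ⟨range_iter_succ ψ k r h, he⟩) (by
    intro k
    obtain ⟨z, hz⟩ := hq (k + 1)
    refine ⟨ψ^[k] z, ⟨z, rfl⟩, ?_⟩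
    rw [← hz, iterate_succ_apply'])
  exact ⟨y, fun k => (hy k).1, (hy 0).2⟩

/-- (V3) -/
theorem core_inj_of_finite (hfi : E0.relIndex E ≠ 0) (h2 : ∀ x, φ x ∈ E → x ∈ E)
    (hE0 : E0 ≤ E) (q : Γ ⧸ E0)
    (hq : q ∈ core (quot φ E0 h10)) (h : quot φ E0 h10 q = 1) : q = 1 := by
  have hfin := finite_map E E0 hfi
  set π := QuotientGroup.mk' E0 with hπ
  set ψ := quot φ E0 h10 with hψ
  have hpull : ∀ r, ψ r ∈ E.map π → r ∈ E.map π := by
    intro r hr
    obtain ⟨x, rfl⟩ := QuotientGroup.mk'_surjective E0 r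
    obtain ⟨e, he, hex⟩ := hr
    have h3 : e⁻¹ * φ x ∈ E0 := QuotientGroup.eq.1 hex
    have h4 : φ x ∈ E := by
      have := E.mul_mem he (hE0 h3)
      simpa using this
    exact ⟨x, h2 x h4, rfl⟩
  let F : Subgroup (Γ ⧸ E0) := core ψ ⊓ E.map π
  have hF : Finite F := Finite.of_injective (fun x : F => (⟨x.1, x.2.2⟩ : E.map π))
    (fun x y hxy => Subtype.ext (congrArg (fun z : E.map π => z.1) hxy))
  have hchoose : ∀ x : F, ∃ y : F, ψ y.1 = x.1 := by
    intro x
    obtain ⟨r, hr, hrx⟩ := core_surj_of_finite φ E E0 h10 hfi h2 hE0 x.1 x.2.1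
    exact ⟨⟨r, hr, hpull r (by rw [hψ, hrx]; exact x.2.2)⟩, hrx⟩
  choose s hs using hchoose
  have hsinj : Injective s := by
    intro x y hxy
    apply Subtype.ext
    rw [← hs x, ← hs y, hxy]
  have hssurj : Surjective s := Finite.surjective_of_injective hsinj
  have hqF : q ∈ F := ⟨hq, hpull q (by rw [h]; exact Subgroup.one_mem _)⟩
  have h1F : (1 : Γ ⧸ E0) ∈ F := Subgroup.one_mem _
  obtain ⟨a, ha⟩ := hssurj ⟨q, hqF⟩
  obtain ⟨b, hb⟩ := hssurj ⟨1, h1F⟩
  have ha' : a.1 = 1 := by rw [← hs a, ha]; exact h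
  have hb' : b.1 = 1 := by rw [← hs b, hb]; exact map_one ψ
  have hab : a = b := Subtype.ext (by rw [ha', hb'])
  have : (⟨q, hqF⟩ : F) = ⟨1, h1F⟩ := by rw [← ha, ← hb, hab]
  exact congrArg Subtype.val this

include h1 in
/-- (V4) The core of the restriction has finite index in the core. -/
theorem finiteIndex_core_res (hφ : Injective φ) (hfi : E0.relIndex E ≠ 0) :
    (((core (res φ E0 h10)).map (pre φ E0 h10).subtype).subgroupOf (core φ)).FiniteIndex := by
  classical
  have hfin3 : (E0.subgroupOf E).FiniteIndex := ⟨hfi⟩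
  have hfinq : Finite (E ⧸ E0.subgroupOf E) := inferInstance
  let C : ℕ → Subgroup (core φ) := fun k =>
    (((pre φ E0 h10).map (MonoidHom.mk' φ^[k] (fun a b => iterate_map_mul φ k a b)))).subgroupOf
      (core φ)
  have memC : ∀ k (x : core φ), x ∈ C k ↔ ∃ y ∈ pre φ E0 h10, φ^[k] y = x.1 := fun k x => Iff.rfl
  have hdec : ∀ k, ∀ g : core φ, ∃ e : E, ∃ y ∈ pre φ E0 h10, φ^[k] (e.1 * y) = g.1 := by
    intro k g
    obtain ⟨x, hx, hxg⟩ := core_surj_iter φ hφ k g.2
    obtain ⟨e, he, hex⟩ := exists_mul_mem_pre φ E h1 E0 h10 hfi x (mk_mem_core φ E h1 hx)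
    refine ⟨⟨e⁻¹, E.inv_mem he⟩, e * x, hex, ?_⟩
    simpa using hxg
  have hfinC : ∀ k, (C k).index ≠ 0 ∧ (C k).index ≤ Nat.card (E ⧸ E0.subgroupOf E) := by
    intro k
    choose e y hy hey using hdec k
    let f : (core φ ⧸ C k) → (E ⧸ E0.subgroupOf E) := fun q => QuotientGroup.mk (e q.out)
    have hf : Injective f := by
      intro q r hqr
      have h3 : (e q.out)⁻¹ * e r.out ∈ E0.subgroupOf E := QuotientGroup.eq.1 hqr
      have h4 : (e q.out).1⁻¹ * (e r.out).1 ∈ E0 := h3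
      have h5 : q.out⁻¹ * r.out ∈ C k := by
        rw [memC]
        refine ⟨(y q.out)⁻¹ * ((e q.out).1⁻¹ * (e r.out).1) * y r.out, ?_, ?_⟩
        · exact Subgroup.mul_mem _ (Subgroup.mul_mem _ (Subgroup.inv_mem _ (hy _))
            (le_pre φ E0 h10 h4)) (hy _)
        · have e3 : (y q.out)⁻¹ * ((e q.out).1⁻¹ * (e r.out).1) * y r.out =
              ((e q.out).1 * y q.out)⁻¹ * ((e r.out).1 * y r.out) := by group
          rw [e3, iterate_map_mul φ k, iterate_map_inv φ k, hey, hey]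
          rfl
      rw [← QuotientGroup.eq, QuotientGroup.out_eq', QuotientGroup.out_eq'] at h5
      exact h5
    have hfin : Finite (core φ ⧸ C k) := Finite.of_injective f hf
    refine ⟨Subgroup.finiteIndex_of_finite_quotient.index_ne_zero, ?_⟩
    exact Nat.card_le_card_of_injective f hf
  apply finiteIndex_of_bounded C ?_ (Nat.card (E ⧸ E0.subgroupOf E)) (fun k => (hfinC k).1)
    (fun k => (hfinC k).2)
  · intro x
    constructor
    · rintro ⟨z, hz, hzx⟩ k
      obtain ⟨w, hw⟩ := hz k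
      rw [memC]
      refine ⟨w.1, w.2, ?_⟩
      rw [← res_iter, hw]; exact hzx
    · intro hx
      have hx0 : x.1 ∈ pre φ E0 h10 := by
        obtain ⟨y, hy, hyx⟩ := (memC 0 x).1 (hx 0)
        have : y = x.1 := hyx
        rwa [← this]
      refine ⟨⟨x.1, hx0⟩, ?_, rfl⟩
      intro k
      obtain ⟨y, hy, hyx⟩ := (memC k x).1 (hx k)
      exact ⟨⟨y, hy⟩, Subtype.ext (by rw [res_iter]; exact hyx)⟩
  · intro k x hx
    obtain ⟨y, hy, hyx⟩ := (memC (k + 1) x).1 hx
    rw [memC]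
    exact ⟨φ y, pre_map φ E0 h10 y hy, by rw [← hyx, iterate_succ_apply]⟩

include h1 in
/-- (V5) -/
theorem core_of_core_res (hφ : Injective φ) (hfi : E0.relIndex E ≠ 0) :
    (Group.FG (core (res φ E0 h10)) → Group.FG (core φ)) ∧
    (Group.IsFinitelyPresented (core (res φ E0 h10)) →
      Group.IsFinitelyPresented (core φ)) := by
  have hfin := finiteIndex_core_res φ E h1 E0 h10 hφ hfi
  set C := (core (res φ E0 h10)).map (pre φ E0 h10).subtype with hC
  have hle : C ≤ core φ := by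
    rintro _ ⟨x, hx, rfl⟩ k
    obtain ⟨y, hy⟩ := hx k
    exact ⟨y.1, by rw [← res_iter, hy]; rfl⟩
  have e1 : core (res φ E0 h10) ≃* C :=
    (core (res φ E0 h10)).equivMapOfInjective _ (Subgroup.subtype_injective _)
  have e2 : C.subgroupOf (core φ) ≃* C := Subgroup.subgroupOfEquivOfLe hle
  have e : core (res φ E0 h10) ≃* C.subgroupOf (core φ) := e1.trans e2.symm
  constructor
  · intro h
    have h3 : Group.FG (C.subgroupOf (core φ)) :=
      Group.fg_of_surjective (f := e.toMonoidHom) e.surjective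
    exact fg_of_finiteIndex_fg (C.subgroupOf (core φ)) h3
  · intro h
    have h3 : Group.IsFinitelyPresented (C.subgroupOf (core φ)) :=
      Group.IsFinitelyPresented.equiv e
    exact fp_of_finiteIndex_fp (C.subgroupOf (core φ)) h3

/-- The subgroup `E0` seen inside `pre φ E0`. -/
abbrev inner : Subgroup (pre φ E0 h10) := E0.subgroupOf (pre φ E0 h10)

theorem inner_map : ∀ x ∈ inner φ E0 h10, res φ E0 h10 x ∈ inner φ E0 h10 :=
  fun x hx => h10 x.1 hx

/-- **Virtual step**: reduction from `E` to a subgroup `E0` of finite index with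
`φ(E0) ≤ E0`. -/
theorem virt_step (hφ : Injective φ) (h2 : ∀ x, φ x ∈ E → x ∈ E) (hE0 : E0 ≤ E)
    (hfi : E0.relIndex E ≠ 0)
    (hL : Lifts (res φ E0 h10) (inner φ E0 h10) (inner_map φ E0 h10)) :
    Lifts φ E h1 := by
  classical
  have hfin := finite_map E E0 hfi
  -- `core ψ → core (quot φ E)` is onto with finite kernel
  set ψ := quot φ E0 h10 with hψ
  have hEpre : ∀ q, q ∈ core ψ → (QuotientGroup.map E0 E (MonoidHom.id Γ) hE0) q ∈
      core (quot φ E h1) := by
    intro q hq k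
    obtain ⟨z, rfl⟩ := hq k
    obtain ⟨x, rfl⟩ := QuotientGroup.mk'_surjective E0 z
    refine ⟨QuotientGroup.mk' E x, ?_⟩
    rw [quot_iter, hψ, quot_iter]
    rfl
  let f : core ψ →* core (quot φ E h1) :=
    ((QuotientGroup.map E0 E (MonoidHom.id Γ) hE0).comp (core ψ).subtype).codRestrict _
      (fun x => hEpre x.1 x.2)
  have hf : Surjective f := by
    rintro ⟨q, hq⟩
    obtain ⟨x, rfl⟩ := QuotientGroup.mk'_surjective E q
    obtain ⟨e, he, hex⟩ := exists_mul_mem_pre φ E h1 E0 h10 hfi x hq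
    refine ⟨⟨QuotientGroup.mk' E0 (e * x), hex⟩, ?_⟩
    apply Subtype.ext
    change QuotientGroup.mk' E (e * x) = QuotientGroup.mk' E x
    apply QuotientGroup.eq.2
    have h3 := (inferInstance : E.Normal).conj_mem _ (E.inv_mem he) x⁻¹
    have e2 : x⁻¹ * e⁻¹ * x⁻¹⁻¹ = (e * x)⁻¹ * x := by group
    rwa [e2] at h3
  have hker : Finite f.ker := by
    have hmem : ∀ x : core ψ, x ∈ f.ker → x.1 ∈ E.map (QuotientGroup.mk' E0) := by
      rintro ⟨q, hq⟩ hx
      obtain ⟨x, rfl⟩ := QuotientGroup.mk'_surjective E0 q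
      have h3 := congrArg Subtype.val ((MonoidHom.mem_ker).1 hx)
      have h4 : QuotientGroup.mk' E x = 1 := h3
      exact ⟨x, (QuotientGroup.eq_one_iff _).1 h4, rfl⟩
    apply Finite.of_injective
      (fun x : f.ker => (⟨x.1.1, hmem x.1 x.2⟩ : E.map (QuotientGroup.mk' E0)))
    intro x y hxy
    have h := congrArg (fun z : E.map (QuotientGroup.mk' E0) => z.1) hxy
    exact Subtype.ext (Subtype.ext h)
  -- the core of the quotient map on `Γ₁ / E0` is everything, and is isomorphic to `core ψ`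
  set φ1 := res φ E0 h10 with hφ1
  set E1 := inner φ E0 h10 with hE1
  have hcore : core (quot φ1 E1 (inner_map φ E0 h10)) = ⊤ := by
    have hs : Surjective (quot φ1 E1 (inner_map φ E0 h10)) := by
      intro q
      obtain ⟨x, rfl⟩ := QuotientGroup.mk'_surjective E1 q
      obtain ⟨r, hr, hrx⟩ := core_surj_of_finite φ E E0 h10 hfi h2 hE0 _ x.2
      obtain ⟨y, rfl⟩ := QuotientGroup.mk'_surjective E0 r
      refine ⟨QuotientGroup.mk' E1 ⟨y, hr⟩, ?_⟩
      rw [quot_mk]
      apply QuotientGroup.eq.2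
      have h3 : (φ y)⁻¹ * x.1 ∈ E0 := QuotientGroup.eq.1 hrx
      exact h3
    rw [eq_top_iff]
    intro q _ k
    exact (hs.iterate k) q
  have e3 : Nonempty (core ψ ≃* core (quot φ1 E1 (inner_map φ E0 h10))) := by
    have hk : (proj φ E0 h10).ker = E1 := by
      ext x; rw [proj_ker]; rfl
    let θ : ((pre φ E0 h10) ⧸ E1) ≃* core ψ := (QuotientGroup.quotientMulEquivOfEq hk.symm).trans
      (QuotientGroup.quotientKerEquivOfSurjective (proj φ E0 h10) (proj_surj φ E0 h10))
    have e4 : core (quot φ1 E1 (inner_map φ E0 h10)) ≃* (pre φ E0 h10) ⧸ E1 := by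
      rw [hcore]; exact Subgroup.topEquiv
    exact ⟨(e4.trans θ).symm⟩
  obtain ⟨e3⟩ := e3
  obtain ⟨c1, c2⟩ := core_of_core_res φ E h1 E0 h10 hφ hfi
  constructor
  · intro hQ
    apply c1
    apply hL.1
    have h3 : Group.FG (core ψ) :=
      fg_of_extension f hf ((Group.fg_iff_subgroup_fg _).1 inferInstance) hQ
    exact Group.fg_of_surjective (f := e3.toMonoidHom) e3.surjective
  · intro hQ
    apply c2
    apply hL.2
    have h3 : Group.IsFinitelyPresented (core ψ) := fp_of_extension f hf inferInstance hQ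
    exact Group.IsFinitelyPresented.equiv e3

end Virt

end MP_52ecc8_gt_h60
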